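import Pool.Agent.URG.Low

/-!
# The lower bound for `Good` and its complement, in terms of `n`
-/

set_option autoImplicit false

namespace Pool.Agent.URG

open Finset Pool.Agent.Lib_helper20.SRO
open Pool.Agent.HPM.Fn (Coord)

/-- each accepted input has an accepting walk on which at most `r` bits of points are tested more
than once, or each accepted input has an accepting walk with at most `r + n L` tests -/
def Nearly {L n : ℕ} {W Q : Type} [DecidableEq W] (G : NBP (W ⊕ (Fin L × Fin n)) Q) (r : ℕ) : Prop :=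
  (∀ v, G.Accepts v → ∃ l, Walk G G.source G.sink l ∧ Agrees v l ∧
    (univ.filter fun p : Fin L × Fin n => 2 ≤ cnt l (Sum.inr p)).card ≤ r) ∨
  (∀ v, G.Accepts v → ∃ l, Walk G G.source G.sink l ∧ Agrees v l ∧ l.length ≤ r + n * L)

/-- the numeric conditions for the constant `c` -/
structure Num (c : ℝ) (n e L r : ℕ) : Prop where
  hn : 2 ≤ n
  he : 1 ≤ e
  hl : 8 ≤ lg n
  hL : 1 ≤ L
  hzs : ((zs n e * pols n e : ℕ) : ℝ) ≤ c * n / 2
  hm : ((2 : ℝ) ^ e) ≤ 2 ^ (c * n)
  h4 : (4 * L : ℝ) ≤ 2 ^ (c * n / 2)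
  hr : (r : ℝ) ≤ c * (n * L)

/-- The lower bound if the tests are suitable: `G` accepts, for these tests, the points that have the
property. -/
theorem t_lowW : ∃ c : ℝ, 0 < c ∧ c ≤ 1 ∧ ∃ n0 : ℕ, ∀ n ≥ n0, ∀ (e L r : ℕ)
    (β : Coord (deg n e)), Num c n e L r →
    ∃ u : VarX n e → Bool, ∀ (W Q : Type) [Fintype Q] [DecidableEq W]
      (G : NBP (W ⊕ (Fin L × Fin n)) Q) (w : W → Bool),
      (∀ y : Fin L × Fin n → Bool, G.Accepts (Sum.elim w y) ↔ Good β u y) → Nearly G r →
      (2 : ℝ) ^ (c * n) ≤ Fintype.card Q := by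
  obtain ⟨c, hc0, hc1, n0, hlow⟩ := t_lowG
  refine ⟨c, hc0, hc1, n0, ?_⟩
  intro n hn0 e L r β hN
  obtain ⟨u, hrect, hdense⟩ := t_good n e β hN.hn hN.he hN.hl
  refine ⟨u, ?_⟩
  intro W Q _ _ G w hacc' hnear
  have hacc : ∀ y : Fin L × Fin n → Bool, G.Accepts (Sum.elim w y) ↔
      ∀ l, one β u (fun j => y (l, j)) = true := by
    intro y
    rw [hacc']
    unfold Good one
    simp only [Bool.and_eq_true, decide_eq_true_eq]
  have hnn : (0 : ℝ) ≤ n := Nat.cast_nonneg n
  refine hlow n hn0 L (2 ^ e) r W Q G w (one β u) hN.hL (rigid_one β u) hrect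
    Nat.one_le_two_pow (by exact_mod_cast hN.hm) ?_ hN.hr hacc ?_
  · have h1 : (2 : ℝ) ^ n ≤ 2 ^ (zs n e * pols n e + 2) *
        (univ.filter fun x : Fin n → Bool => one β u x = true).card := by exact_mod_cast hdense
    have h3 : (2 : ℝ) ^ (zs n e * pols n e + 2) * L ≤ 2 ^ (c * n) := by
      have e1 : (2 : ℝ) ^ (zs n e * pols n e) ≤ 2 ^ (c * n / 2) := by
        rw [← Real.rpow_natCast]
        exact Real.rpow_le_rpow_of_exponent_le one_le_two hN.hzs
      calc (2 : ℝ) ^ (zs n e * pols n e + 2) * L = 2 ^ (zs n e * pols n e) * (4 * L) := by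
            rw [pow_add]
            ring
        _ ≤ 2 ^ (c * n / 2) * 2 ^ (c * n / 2) := by
            apply mul_le_mul e1 hN.h4 (by positivity) (by positivity)
        _ = 2 ^ (c * n) := by
            rw [← Real.rpow_add (by norm_num)]
            congr 1
            ring
    calc (2 : ℝ) ^ n * L ≤ (2 ^ (zs n e * pols n e + 2) *
          (univ.filter fun x : Fin n → Bool => one β u x = true).card) * L :=
          mul_le_mul_of_nonneg_right h1 (by positivity)
      _ = (2 ^ (zs n e * pols n e + 2) * L) *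
          (univ.filter fun x : Fin n → Bool => one β u x = true).card := by ring
      _ ≤ _ := mul_le_mul_of_nonneg_right h3 (by positivity)
  · intro b hb
    rcases hnear with h | h
    · exact h _ hb
    · obtain ⟨l, hl, hbl, hlen⟩ := h _ hb
      refine ⟨l, hl, hbl, ?_⟩
      have h1 := short_few G w (one β u) (rigid_one β u) (fun b hb => (hacc b).1 hb) b l hl hbl
      have h2 : L * n = n * L := mul_comm _ _
      omega

/-! ### The functions -/

open Classical in
lemma goodA_iff {n e L : ℕ} (β : Coord (deg n e)) (v : VarA n e L → Bool) :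
    goodA β v = true ↔ Good β (fun i => v (Sum.inl i)) fun p => v (Sum.inr p) := by
  unfold goodA
  rw [decide_eq_true_iff]

open Classical in
lemma goodF_true {n e L : ℕ} (β : Coord (deg n e)) (v : VarG n e L → Bool) (hv : pol v = true) :
    goodF β v = true ↔ Good β (fun i => v (Sum.inl (Sum.inl i))) fun p => v (Sum.inr p) := by
  unfold goodF
  rw [decide_eq_true_iff, hv]
  simp

open Classical in
lemma goodF_false {n e L : ℕ} (β : Coord (deg n e)) (v : VarG n e L → Bool) (hv : pol v = false) :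
    (!goodF β v) = true ↔
      Good β (fun i => v (Sum.inl (Sum.inl i))) fun p => v (Sum.inr p) := by
  unfold goodF
  rw [Bool.not_eq_true', decide_eq_false_iff_not, hv]
  simp

/-- the core lower bound for a function `f` -/
def Core {W : Type} [DecidableEq W] (c : ℝ) (n L : ℕ) (f : (W ⊕ (Fin L × Fin n) → Bool) → Bool) :
    Prop :=
  ∀ r : ℕ, (r : ℝ) ≤ c * (n * L) → ∀ (Q : Type) [Fintype Q] (G : NBP (W ⊕ (Fin L × Fin n)) Q),
    G.Computes f → Nearly G r → (2 : ℝ) ^ (c * n) ≤ Fintype.card Q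

theorem t_core : ∃ c : ℝ, 0 < c ∧ c ≤ 1 ∧ ∃ n0 : ℕ, ∀ n ≥ n0, ∀ (e L : ℕ) (β : Coord (deg n e)),
    (∀ r : ℕ, (r : ℝ) ≤ c * (n * L) → Num c n e L r) →
    Core c n L (goodA (L := L) β) ∧ Core c n L (goodF (L := L) β) ∧
      Core c n L (fun v : VarG n e L → Bool => !goodF β v) := by
  obtain ⟨c, hc0, hc1, n0, hlow⟩ := t_lowW
  refine ⟨c, hc0, hc1, n0, ?_⟩
  intro n hn e L β hN
  refine ⟨fun r hr Q _ G hcomp hnear => ?_, fun r hr Q _ G hcomp hnear => ?_,
    fun r hr Q _ G hcomp hnear => ?_⟩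
  · obtain ⟨u, h⟩ := hlow n hn e L r β (hN r hr)
    refine h _ Q G u (fun y => ?_) hnear
    rw [hcomp]
    exact goodA_iff β _
  · obtain ⟨u, h⟩ := hlow n hn e L r β (hN r hr)
    refine h _ Q G (Sum.elim u fun _ => true) (fun y => ?_) hnear
    rw [hcomp]
    exact goodF_true β _ rfl
  · obtain ⟨u, h⟩ := hlow n hn e L r β (hN r hr)
    refine h _ Q G (Sum.elim u fun _ => false) (fun y => ?_) hnear
    rw [hcomp]
    exact goodF_false β _ rfl

end Pool.Agent.URG
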