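import Pool.Agent.URG.Core4

/-!
# From many points to one point
-/

set_option autoImplicit false

namespace Pool.Agent.URG

open Finset Pool.Agent.Lib_helper20.SRO

/-- how often the variable `x` is tested -/
def cnt {V : Type} [DecidableEq V] (l : List (V × Bool)) (x : V) : ℕ := (l.map Prod.fst).count x

/-- the assignment of the points -/
def unc {L n : ℕ} (y : Fin L → Fin n → Bool) : Fin L × Fin n → Bool := fun p => y p.1 p.2

lemma ext_unc {L n : ℕ} {W : Type} (w : W → Bool) (y : Fin L → Fin n → Bool) (i : Fin L)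
    (b : Fin n → Bool) : ext (fun j : Fin n => (Sum.inr (i, j) : W ⊕ (Fin L × Fin n)))
      (Sum.elim w (unc y)) b = Sum.elim w (unc (Function.update y i b)) := by
  have hι : Function.Injective (fun j : Fin n => (Sum.inr (i, j) : W ⊕ (Fin L × Fin n))) := by
    intro j j' h
    simpa using h
  funext v
  rcases v with v | ⟨l, j⟩
  · refine (ext_of_not _ _ fun x h => ?_).trans rfl
    exact absurd h (by simp)
  · by_cases hl : l = i
    · subst hl
      refine (ext_apply hι (Sum.elim w (unc y)) b j).trans ?_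
      simp [unc]
    · refine (ext_of_not _ _ fun x h => ?_).trans ?_
      · simp only [Sum.inr.injEq, Prod.mk.injEq] at h
        exact hl h.1.symm
      · simp [unc, hl]

/-- Few rereads of the bits of the points in all: few rereads of one point, for a dense set of
values of this point. -/
theorem pigeon {L n r : ℕ} (hL : 1 ≤ L) (A : Finset (Fin n → Bool)) (hA : A.Nonempty)
    (R : (Fin L → Fin n → Bool) → Fin L → ℕ → Prop)
    (hR : ∀ y ∈ Fintype.piFinset (fun _ : Fin L => A), ∃ i, R y i (r / L)) :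
    ∃ (i : Fin L) (y : Fin L → Fin n → Bool), (∀ l, y l ∈ A) ∧ ∃ B0 ⊆ A,
      (∀ x ∈ B0, R (Function.update y i x) i (r / L)) ∧ A.card ≤ L * B0.card := by
  classical
  set T := Fintype.piFinset (fun _ : Fin L => A) with hT
  have hTne : T.Nonempty := by
    rw [hT, Fintype.piFinset_nonempty]
    exact fun _ => hA
  have hTpos : 0 < T.card := card_pos.2 hTne
  let S : Fin L → Finset (Fin L → Fin n → Bool) := fun i => T.filter fun y => R y i (r / L)
  have : Nonempty (Fin L) := ⟨⟨0, hL⟩⟩
  obtain ⟨i, hi⟩ := Finite.exists_max fun i => (S i).card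
  have h1 : T.card ≤ L * (S i).card := by
    have hcov : T ⊆ (univ : Finset (Fin L)).biUnion S := by
      intro y hy
      obtain ⟨j, hj⟩ := hR y hy
      rw [mem_biUnion]
      exact ⟨j, mem_univ _, mem_filter.2 ⟨hy, hj⟩⟩
    calc T.card ≤ ((univ : Finset (Fin L)).biUnion S).card := card_le_card hcov
      _ ≤ ∑ j, (S j).card := card_biUnion_le
      _ ≤ ∑ _j : Fin L, (S i).card := sum_le_sum fun j _ => hi j
      _ = L * (S i).card := by rw [sum_const, smul_eq_mul, card_univ, Fintype.card_fin]
  let f : (Fin L → Fin n → Bool) → ℕ := fun y =>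
    (A.filter fun x => R (Function.update y i x) i (r / L)).card
  have h2 : ∑ y ∈ T, f y = A.card * (S i).card := by
    have e1 : ∑ y ∈ T, f y =
        ((T ×ˢ A).filter fun q => R (Function.update q.1 i q.2) i (r / L)).card := by
      rw [card_filter, sum_product]
      refine sum_congr rfl fun y _ => ?_
      simp only [f, card_filter]
    have e2 : A.card * (S i).card = ((T ×ˢ A).filter fun q => R q.1 i (r / L)).card := by
      rw [mul_comm, ← card_product]
      congr 1
      ext q
      simp only [mem_product, mem_filter, S]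
      tauto
    rw [e1, e2]
    refine card_nbij' (fun q => (Function.update q.1 i q.2, q.1 i))
      (fun q => (Function.update q.1 i q.2, q.1 i)) ?_ ?_ ?_ ?_
    · intro q hq
      rw [mem_coe, mem_filter, mem_product, hT, Fintype.mem_piFinset] at hq
      rw [mem_coe, mem_filter, mem_product, hT, Fintype.mem_piFinset]
      refine ⟨⟨fun l => ?_, hq.1.1 i⟩, hq.2⟩
      by_cases hl : l = i
      · subst hl
        simpa using hq.1.2
      · simpa [hl] using hq.1.1 l
    · intro q hq
      rw [mem_coe, mem_filter, mem_product, hT, Fintype.mem_piFinset] at hq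
      rw [mem_coe, mem_filter, mem_product, hT, Fintype.mem_piFinset]
      refine ⟨⟨fun l => ?_, hq.1.1 i⟩, ?_⟩
      · by_cases hl : l = i
        · subst hl
          simpa using hq.1.2
        · simpa [hl] using hq.1.1 l
      · simp only [Function.update_idem, Function.update_eq_self]
        exact hq.2
    · intro q _
      simp
    · intro q _
      simp
  obtain ⟨y, hy, hfy⟩ : ∃ y ∈ T, A.card * (S i).card ≤ T.card * f y := by
    by_contra hcon
    push Not at hcon
    have h3 : ∑ y ∈ T, T.card * f y < ∑ _y ∈ T, A.card * (S i).card := sum_lt_sum_of_nonempty hTne hcon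
    rw [← mul_sum, h2, sum_const, smul_eq_mul] at h3
    exact lt_irrefl _ h3
  refine ⟨i, y, fun l => (Fintype.mem_piFinset.1 hy) l, A.filter fun x =>
    R (Function.update y i x) i (r / L), filter_subset _ _, fun x hx => (mem_filter.1 hx).2, ?_⟩
  have h4 : A.card * T.card ≤ (L * f y) * T.card := by
    calc A.card * T.card ≤ A.card * (L * (S i).card) := Nat.mul_le_mul_left _ h1
      _ = L * (A.card * (S i).card) := by ring
      _ ≤ L * (T.card * f y) := Nat.mul_le_mul_left _ hfy
      _ = (L * f y) * T.card := by ring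
  exact Nat.le_of_mul_le_mul_right h4 hTpos

/-- **The lower bound for the conjunction of one-point functions.** -/
theorem t_lowG : ∃ c : ℝ, 0 < c ∧ c ≤ 1 ∧ ∃ n0 : ℕ, ∀ n ≥ n0, ∀ (L m r : ℕ) (W Q : Type)
    [Fintype Q] [DecidableEq W] (G : NBP (W ⊕ (Fin L × Fin n)) Q) (w : W → Bool)
    (g : (Fin n → Bool) → Bool), 1 ≤ L → Rigid g → RectFree g m → 1 ≤ m →
    (m : ℝ) ≤ 2 ^ (c * n) →
    (2 : ℝ) ^ n * L ≤ 2 ^ (c * n) * (univ.filter fun x => g x = true).card →
    (r : ℝ) ≤ c * (n * L) →
    (∀ b : Fin L × Fin n → Bool, G.Accepts (Sum.elim w b) ↔ ∀ l, g (fun j => b (l, j)) = true) →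
    (∀ b : Fin L × Fin n → Bool, G.Accepts (Sum.elim w b) → ∃ l, Walk G G.source G.sink l ∧
      Agrees (Sum.elim w b) l ∧
      (univ.filter fun p : Fin L × Fin n => 2 ≤ cnt l (Sum.inr p)).card ≤ r) →
    (2 : ℝ) ^ (c * n) ≤ Fintype.card Q := by
  classical
  obtain ⟨c1, hc1, n0, hcore⟩ := t_core4
  set c : ℝ := min c1 1 with hc
  have hc0 : 0 < c := lt_min hc1 one_pos
  have hcc1 : c ≤ c1 := min_le_left _ _
  refine ⟨c, hc0, min_le_right _ _, n0, ?_⟩
  intro n hn L m r W Q _ _ G w g hL hrig hrf hm1 hm hdense hr hacc hfew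
  have hn0 : (0 : ℝ) ≤ n := Nat.cast_nonneg n
  have hLR : (0 : ℝ) < L := by exact_mod_cast hL
  have hcn : c * n ≤ c1 * n := mul_le_mul_of_nonneg_right hcc1 hn0
  have hpw : (2 : ℝ) ^ (c * n) ≤ 2 ^ (c1 * n) := Real.rpow_le_rpow_of_exponent_le one_le_two hcn
  set A := univ.filter fun x : Fin n → Bool => g x = true with hA
  have hAne : A.Nonempty := by
    rw [← card_pos]
    rcases Nat.eq_zero_or_pos A.card with h | h
    · rw [h] at hdense
      simp only [Nat.cast_zero, mul_zero] at hdense
      have : (0 : ℝ) < 2 ^ n * L := by positivity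
      linarith
    · exact h
  let R : (Fin L → Fin n → Bool) → Fin L → ℕ → Prop := fun y i k =>
    ∃ l, Walk G G.source G.sink l ∧ Agrees (Sum.elim w (unc y)) l ∧
      (univ.filter fun j : Fin n => 2 ≤ cnt l (Sum.inr (i, j))).card ≤ k
  have hR : ∀ y ∈ Fintype.piFinset (fun _ : Fin L => A), ∃ i, R y i (r / L) := by
    intro y hy
    have h1 : G.Accepts (Sum.elim w (unc y)) := by
      rw [hacc]
      intro l
      exact (mem_filter.1 (Fintype.mem_piFinset.1 hy l)).2
    obtain ⟨l, hl, hbl, hcl⟩ := hfew _ h1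
    by_contra hcon
    push Not at hcon
    have h2 : ∀ i : Fin L, r / L + 1 ≤
        (univ.filter fun j : Fin n => 2 ≤ cnt l (Sum.inr (i, j))).card := by
      intro i
      by_contra h3
      exact hcon i ⟨l, hl, hbl, by omega⟩
    have h3 : (univ.filter fun p : Fin L × Fin n =>
        2 ≤ cnt l (Sum.inr p)).card = ∑ i : Fin L,
        (univ.filter fun j : Fin n => 2 ≤ cnt l (Sum.inr (i, j))).card := by
      rw [card_filter, Fintype.sum_prod_type]
      refine sum_congr rfl fun i _ => ?_
      rw [card_filter]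
    have h4 : ∑ _i : Fin L, (r / L + 1) ≤ ∑ i : Fin L,
        (univ.filter fun j : Fin n => 2 ≤ cnt l (Sum.inr (i, j))).card :=
      sum_le_sum fun i _ => h2 i
    rw [sum_const, smul_eq_mul, card_univ, Fintype.card_fin, ← h3] at h4
    have h5 : r < L * (r / L + 1) := Nat.lt_mul_div_succ r hL
    omega
  obtain ⟨i, y, hy, B0, hB0A, hB0, hcard⟩ := pigeon hL A hAne R hR
  have hι : Function.Injective (fun j : Fin n => (Sum.inr (i, j) : W ⊕ (Fin L × Fin n))) := by
    intro j j' h
    simpa using h
  refine hpw.trans (hcore n hn Q (fixI G (fun j : Fin n => (Sum.inr (i, j) :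
    W ⊕ (Fin L × Fin n))) (Sum.elim w (unc y))) g m (r / L) B0 ?_ ?_ hrig ?_ hm1 (hm.trans hpw)
    hrf ?_)
  · have h1 : ((r / L : ℕ) : ℝ) ≤ (r : ℝ) / L := Nat.cast_div_le
    refine h1.trans ?_
    rw [div_le_iff₀ hLR]
    calc (r : ℝ) ≤ c * (n * L) := hr
      _ = c * n * L := by ring
      _ ≤ c1 * n * L := mul_le_mul_of_nonneg_right hcn hLR.le
  · intro b hb
    rw [fixI_accepts hι, ext_unc, hacc] at hb
    have := hb i
    simpa [unc] using this
  · intro b hb
    obtain ⟨l, hl, hbl, hcl⟩ := hB0 b hb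
    obtain ⟨l', hl', h1, h2⟩ := walk_fix3 hι (a := Sum.elim w (unc y)) hl (by
      intro p hp hx
      rw [← hbl p hp, ← ext_unc, ext_of_not _ _ hx])
    refine ⟨l', hl', h1 b (by rw [ext_unc]; exact hbl), ?_⟩
    simp only [h2]
    exact hcl
  · have h1 : (A.card : ℝ) ≤ L * B0.card := by exact_mod_cast hcard
    have h2 : (0 : ℝ) ≤ 2 ^ (c * n) := Real.rpow_nonneg (by norm_num) _
    have h3 : (2 : ℝ) ^ n * L ≤ (2 ^ (c * n) * B0.card) * L := by
      refine hdense.trans ((mul_le_mul_of_nonneg_left h1 h2).trans (le_of_eq ?_))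
      ring
    refine (le_of_mul_le_mul_right h3 hLR).trans ?_
    exact mul_le_mul_of_nonneg_right hpw (Nat.cast_nonneg _)

end Pool.Agent.URG
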