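import Pool.Agent.URG.Defs

/-!
# One test: the value of a random polynomial at the hash value of the point
-/

set_option autoImplicit false

namespace Pool.Agent.URG.BLK

open Finset hiding val
open Pool.Agent.HPM (elt val)
open Pool.Agent.HPM.Fn (Coord)

/-! ### Homomorphisms -/

lemma card_pre {G H : Type} [AddCommGroup G] [AddCommGroup H] [Fintype G] [Fintype H]
    [DecidableEq H] (f : G →+ H) (hf : Function.Surjective f) (A : H → Prop) [DecidablePred A] :
    (univ.filter fun g => A (f g)).card * Fintype.card H = (univ.filter A).card *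
      Fintype.card G := by
  have h1 : ∀ y : H, (univ.filter fun g => f g = y).card = (univ.filter fun g => f g = 0).card :=
    fun y => AddMonoidHom.card_fiber_eq_of_mem_range f (hf y) (hf 0)
  set c := (univ.filter fun g => f g = 0).card with hc
  have h2 : (univ.filter fun g => A (f g)).card = (univ.filter A).card * c := by
    rw [card_eq_sum_card_fiberwise (f := f) (t := univ.filter A)]
    · rw [sum_congr rfl (g := fun _ => c), sum_const, smul_eq_mul]
      intro y hy
      rw [← h1 y, filter_filter]
      congr 1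
      ext g
      simp only [mem_filter, mem_univ, true_and]
      constructor
      · exact fun h => h.2
      · intro h
        refine ⟨?_, h⟩
        rw [h]
        exact (mem_filter.1 hy).2
    · intro g hg
      rw [mem_coe, mem_filter] at hg ⊢
      exact ⟨mem_univ _, hg.2⟩
  have h3 : Fintype.card G = Fintype.card H * c := by
    rw [← card_univ, card_eq_sum_card_fiberwise (f := f) (t := univ)]
    · rw [sum_congr rfl (g := fun _ => c), sum_const, smul_eq_mul, card_univ]
      intro y _
      exact h1 y
    · intro g _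
      exact mem_coe.2 (mem_univ _)
  rw [h2, h3]
  ring

/-! ### Interpolation -/

/-- evaluation of the polynomials of degree less than `t` at the points of `Z` -/
noncomputable def ev {F : Type} [Field F] (t : ℕ) (Z : Finset F) : (Fin t → F) →+ (Z → F) where
  toFun q z := ∑ k : Fin t, q k * (z : F) ^ (k : ℕ)
  map_zero' := by
    funext z
    simp
  map_add' q q' := by
    funext z
    simp only [Pi.add_apply, add_mul, sum_add_distrib]

lemma ev_surj {F : Type} [Field F] {t : ℕ} (Z : Finset F) (hZ : Z.card ≤ t) :
    Function.Surjective (ev t Z) := by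
  classical
  intro y
  rcases Z.eq_empty_or_nonempty with h | h
  · refine ⟨0, ?_⟩
    funext z
    have h0 : ∀ a ∈ Z, False := by
      intro a ha
      rw [h] at ha
      exact notMem_empty _ ha
    exact (h0 _ z.2).elim
  · let r : F → F := fun z => if h : z ∈ Z then y ⟨z, h⟩ else 0
    let p := Lagrange.interpolate Z id r
    have hinj : Set.InjOn (id : F → F) (Z : Set F) := Function.injective_id.injOn
    have hdeg : p.degree < Z.card := Lagrange.degree_interpolate_lt r hinj
    have hnat : p.natDegree < t := by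
      have h1 : 0 < Z.card := card_pos.2 h
      by_cases hp : p = 0
      · rw [hp, Polynomial.natDegree_zero]
        omega
      · have := (Polynomial.natDegree_lt_iff_degree_lt hp).2 hdeg
        omega
    refine ⟨fun k => p.coeff k, ?_⟩
    funext z
    show ∑ k : Fin t, p.coeff k * (z : F) ^ (k : ℕ) = y z
    rw [Fin.sum_univ_eq_sum_range (fun k => p.coeff k * (z : F) ^ k) t,
      ← Polynomial.eval_eq_sum_range' hnat]
    have h2 := Lagrange.eval_interpolate_at_node r hinj z.2
    simp only [id] at h2
    rw [h2]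
    simp [r]

/-- polynomials with values in `A` at the points of `Z` -/
lemma card_ev {F : Type} [Field F] [Fintype F] [DecidableEq F] {t : ℕ} (Z : Finset F)
    (hZ : Z.card ≤ t) (A : F → Prop) [DecidablePred A] :
    (univ.filter fun q : Fin t → F => ∀ z ∈ Z, A (∑ k : Fin t, q k * z ^ (k : ℕ))).card *
      Fintype.card F ^ Z.card = (univ.filter A).card ^ Z.card * Fintype.card F ^ t := by
  have h := card_pre (ev t Z) (ev_surj Z hZ) (fun y => ∀ z, A (y z))
  have h1 : (univ.filter fun q : Fin t → F => ∀ z : Z, A (ev t Z q z)) =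
      univ.filter fun q : Fin t → F => ∀ z ∈ Z, A (∑ k : Fin t, q k * z ^ (k : ℕ)) := by
    ext q
    simp only [mem_filter, mem_univ, true_and]
    constructor
    · exact fun h z hz => h ⟨z, hz⟩
    · exact fun h z => h z z.2
  have h2 : (univ.filter fun y : Z → F => ∀ z, A (y z)).card = (univ.filter A).card ^ Z.card := by
    have e : (univ.filter fun y : Z → F => ∀ z, A (y z)) =
        Fintype.piFinset fun _ : Z => univ.filter A := by
      ext y
      simp [Fintype.mem_piFinset]
    rw [e, Fintype.card_piFinset, prod_const, card_univ, Fintype.card_coe]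
  have h3 : Fintype.card (Z → F) = Fintype.card F ^ Z.card := by
    rw [Fintype.card_fun, Fintype.card_coe]
  have h4 : Fintype.card (Fin t → F) = Fintype.card F ^ t := by
    rw [Fintype.card_fun, Fintype.card_fin]
  rw [h1, h2, h3, h4] at h
  exact h

/-! ### Coordinates -/

variable {h : ℕ}

lemma repr_elt (β : Coord h) (a : Fin h → Bool) (i : Fin h) :
    β.repr (elt β a) i = if a i then 1 else 0 := by
  have e : elt β a = ∑ i, (if a i then (1 : ZMod 2) else 0) • β i := by
    unfold elt
    refine Finset.sum_congr rfl fun i _ => ?_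
    split_ifs <;> simp
  rw [e, Module.Basis.repr_sum_self]

lemma elt_inj (β : Coord h) : Function.Injective (elt β) := by
  intro a a' hh
  funext i
  have h1 := repr_elt β a i
  rw [hh, repr_elt β a' i] at h1
  rcases ha : a i with _ | _ <;> rcases ha' : a' i with _ | _ <;> rw [ha, ha'] at h1 <;>
    simp at h1 ⊢

lemma elt_surj (β : Coord h) : Function.Surjective (elt β) := by
  intro w
  refine ⟨fun i => decide (β.repr w i = 1), ?_⟩
  apply β.repr.injective
  ext i
  rw [repr_elt]
  have : ∀ u : ZMod 2, (if decide (u = 1) = true then (1 : ZMod 2) else 0) = u := by decide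
  exact this _

/-- bits and field elements -/
noncomputable def eq (β : Coord h) : (Fin h → Bool) ≃ GaloisField 2 h :=
  Equiv.ofBijective (elt β) ⟨elt_inj β, elt_surj β⟩

lemma card_bits (β : Coord h) [Fintype (GaloisField 2 h)] : Fintype.card (GaloisField 2 h) = 2 ^ h := by
  rw [← Fintype.card_congr (eq β), Fintype.card_fun, Fintype.card_bool, Fintype.card_fin]

lemma card_zero [Fintype (GaloisField 2 h)] (β : Coord h) {z : ℕ} (hz : z ≤ h) :
    (univ.filter fun w : GaloisField 2 h => ∀ i : Fin z, β.repr w (Fin.castLE hz i) = 0).card *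
      2 ^ z = 2 ^ h := by
  let f : GaloisField 2 h →+ (Fin z → ZMod 2) :=
    { toFun := fun w i => β.repr w (Fin.castLE hz i)
      map_zero' := by
        funext i
        simp
      map_add' := by
        intro w w'
        funext i
        simp }
  have hf : Function.Surjective f := by
    intro y
    refine ⟨β.equivFun.symm fun j => if hj : (j : ℕ) < z then y ⟨j, hj⟩ else 0, ?_⟩
    funext i
    show β.repr _ (Fin.castLE hz i) = y i
    rw [← Module.Basis.equivFun_apply, LinearEquiv.apply_symm_apply]
    simp
  have h1 := card_pre f hf (fun y => y = 0)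
  have h2 : (univ.filter fun w => f w = 0) =
      univ.filter fun w : GaloisField 2 h => ∀ i : Fin z, β.repr w (Fin.castLE hz i) = 0 := by
    ext w
    simp only [mem_filter, mem_univ, true_and]
    exact funext_iff
  have h3 : (univ.filter fun y : Fin z → ZMod 2 => y = 0).card = 1 := by
    rw [filter_eq']
    simp
  rw [h2, h3, Fintype.card_fun, ZMod.card, Fintype.card_fin, card_bits β, one_mul] at h1
  exact h1

/-- polynomials with vanishing coordinates at the points of `Z` -/
lemma card_bitpoly (β : Coord h) {t z : ℕ} (hz : z ≤ h) (Z : Finset (GaloisField 2 h))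
    (hZ : Z.card ≤ t) :
    (univ.filter fun q : Fin t → Fin h → Bool => ∀ w ∈ Z, ∀ i : Fin z,
      β.repr (∑ k : Fin t, elt β (q k) * w ^ (k : ℕ)) (Fin.castLE hz i) = 0).card *
        2 ^ (z * Z.card) = 2 ^ (h * t) := by
  have : DecidableEq (GaloisField 2 h) := Classical.decEq _
  have : Fintype (GaloisField 2 h) := Fintype.ofFinite _
  have h1 := card_ev Z hZ (fun w => ∀ i : Fin z, β.repr w (Fin.castLE hz i) = 0)
  have h2 := card_zero β hz
  set A := (univ.filter fun w : GaloisField 2 h => ∀ i : Fin z,
    β.repr w (Fin.castLE hz i) = 0).card with hA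
  have h3 : (univ.filter fun q : Fin t → GaloisField 2 h => ∀ w ∈ Z, ∀ i : Fin z,
      β.repr (∑ k : Fin t, q k * w ^ (k : ℕ)) (Fin.castLE hz i) = 0).card =
      (univ.filter fun q : Fin t → Fin h → Bool => ∀ w ∈ Z, ∀ i : Fin z,
      β.repr (∑ k : Fin t, elt β (q k) * w ^ (k : ℕ)) (Fin.castLE hz i) = 0).card := by
    symm
    refine card_equiv (Equiv.piCongrRight fun _ => eq β) fun q => ?_
    simp only [mem_filter, mem_univ, true_and]
    exact Iff.rfl
  rw [h3, card_bits β, ← h2] at h1
  set c := (univ.filter fun q : Fin t → Fin h → Bool => ∀ w ∈ Z, ∀ i : Fin z,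
      β.repr (∑ k : Fin t, elt β (q k) * w ^ (k : ℕ)) (Fin.castLE hz i) = 0).card
  have hA0 : 0 < A := by
    rcases Nat.eq_zero_or_pos A with h0 | h0
    · rw [h0, zero_mul] at h2
      have : 0 < 2 ^ h := by positivity
      omega
    · exact h0
  have h4 : (A ^ Z.card) * (c * 2 ^ (z * Z.card)) = (A ^ Z.card) * 2 ^ (h * t) := by
    calc (A ^ Z.card) * (c * 2 ^ (z * Z.card)) = c * (A * 2 ^ z) ^ Z.card := by
          rw [mul_pow, ← pow_mul]
          ring
      _ = A ^ Z.card * (A * 2 ^ z) ^ t := h1
      _ = _ := by rw [h2, ← pow_mul]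
  have h5 := Nat.eq_of_mul_eq_mul_left (pow_pos hA0 Z.card) h4
  rw [← h5]
  refine congrArg (· * 2 ^ (z * Z.card)) (congrArg Finset.card ?_)
  exact filter_congr_decidable _ _ _

/-! ### Collisions -/

/-- the polynomial `z - z'` -/
noncomputable def difP {n h : ℕ} (z z' : Fin n → Bool) : Polynomial (GaloisField 2 h) :=
  ∑ j : Fin n, Polynomial.C ((if z j then 1 else 0) - (if z' j then 1 else 0)) *
    Polynomial.X ^ (j : ℕ)

lemma difP_eval {n h : ℕ} (z z' : Fin n → Bool) (a : GaloisField 2 h) :
    (difP z z').eval a = val z a - val z' a := by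
  unfold difP val
  rw [Polynomial.eval_finsetSum, ← Finset.sum_sub_distrib]
  refine Finset.sum_congr rfl fun j _ => ?_
  simp only [Polynomial.eval_mul, Polynomial.eval_C, Polynomial.eval_pow, Polynomial.eval_X]
  split_ifs <;> simp

lemma difP_coeff {n h : ℕ} (z z' : Fin n → Bool) (i : Fin n) :
    (difP (h := h) z z').coeff i = (if z i then 1 else 0) - (if z' i then 1 else 0) := by
  unfold difP
  rw [Polynomial.finsetSum_coeff]
  rw [Finset.sum_eq_single i]
  · rw [Polynomial.coeff_C_mul, Polynomial.coeff_X_pow, if_pos rfl, mul_one]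
  · intro j _ hj
    have h2 : ¬ (i : ℕ) = (j : ℕ) := fun h1 => hj (Fin.ext h1.symm)
    rw [Polynomial.coeff_C_mul, Polynomial.coeff_X_pow, if_neg h2, mul_zero]
  · intro h1
    exact absurd (Finset.mem_univ i) h1

lemma difP_ne {n h : ℕ} (z z' : Fin n → Bool) (hz : z ≠ z') :
    difP (h := h) z z' ≠ 0 := by
  intro h0
  apply hz
  funext i
  have h1 := difP_coeff (h := h) z z' i
  rw [h0, Polynomial.coeff_zero] at h1
  rcases ha : z i with _ | _ <;> rcases ha' : z' i with _ | _ <;> rw [ha, ha'] at h1 <;>
    simp at h1 ⊢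

lemma difP_deg {n h : ℕ} (z z' : Fin n → Bool) :
    (difP (h := h) z z').natDegree ≤ n := by
  unfold difP
  refine Polynomial.natDegree_sum_le_of_forall_le _ _ fun j _ => ?_
  exact (Polynomial.natDegree_C_mul_X_pow_le _ _).trans j.2.le

open Classical in
/-- few elements do not separate two points -/
lemma card_coll {n : ℕ} (β : Coord h) (z z' : Fin n → Bool) (hz : z ≠ z') :
    ((univ : Finset (Fin h → Bool)).filter fun a =>
      val z (elt β a) = val z' (elt β a)).card ≤ n := by
  refine le_trans ?_ (difP_deg (h := h) z z')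
  refine le_trans ?_ (Polynomial.card_roots' _)
  refine le_trans ?_ (Multiset.toFinset_card_le _)
  refine Finset.card_le_card_of_injOn (elt β) ?_ (elt_inj β).injOn
  intro a ha
  have ha' := (Finset.mem_filter.mp (Finset.mem_coe.mp ha)).2
  rw [Finset.mem_coe, Multiset.mem_toFinset, Polynomial.mem_roots (difP_ne z z' hz)]
  rw [Polynomial.IsRoot.def, difP_eval]
  exact sub_eq_zero.2 ha'

open Classical in
/-- few elements do not separate some points -/
lemma card_noninj {n : ℕ} (β : Coord h) (Z : Finset (Fin n → Bool)) :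
    ((univ : Finset (Fin h → Bool)).filter fun a =>
      ¬ Set.InjOn (fun z => val z (elt β a)) (Z : Set (Fin n → Bool))).card ≤
      Z.card * Z.card * n := by
  have h1 : ((univ : Finset (Fin h → Bool)).filter fun a =>
      ¬ Set.InjOn (fun z => val z (elt β a)) (Z : Set (Fin n → Bool))) ⊆
      ((Z ×ˢ Z).filter fun p => p.1 ≠ p.2).biUnion fun p =>
        (univ : Finset (Fin h → Bool)).filter fun a => val p.1 (elt β a) = val p.2 (elt β a) := by
    intro a ha
    rw [mem_filter] at ha
    have h2 := ha.2
    unfold Set.InjOn at h2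
    push Not at h2
    obtain ⟨z, hz, z', hz', h3, h4⟩ := h2
    rw [mem_biUnion]
    refine ⟨(z, z'), ?_, ?_⟩
    · rw [mem_filter, mem_product]
      exact ⟨⟨hz, hz'⟩, h4⟩
    · rw [mem_filter]
      exact ⟨mem_univ _, h3⟩
  refine (card_le_card h1).trans (card_biUnion_le.trans ?_)
  calc ∑ p ∈ (Z ×ˢ Z).filter fun p => p.1 ≠ p.2,
        ((univ : Finset (Fin h → Bool)).filter fun a => val p.1 (elt β a) = val p.2 (elt β a)).card
      ≤ ∑ _p ∈ (Z ×ˢ Z).filter fun p => p.1 ≠ p.2, n := by
        refine sum_le_sum fun p hp => ?_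
        exact card_coll β p.1 p.2 (mem_filter.1 hp).2
    _ = ((Z ×ˢ Z).filter fun p => p.1 ≠ p.2).card * n := by rw [sum_const, smul_eq_mul]
    _ ≤ (Z ×ˢ Z).card * n := Nat.mul_le_mul_right _ (card_filter_le _ _)
    _ = _ := by rw [card_product]

/-! ### One test -/

open Classical in
/-- one point passes a test -/
theorem card_one {n t z : ℕ} (β : Coord h) (hz : z ≤ h) (ht : 1 ≤ t) (x : Fin n → Bool) :
    2 ^ z * (univ.filter fun σ : (Fin h → Bool) × (Fin t → Fin h → Bool) =>
      Zero β hz σ.1 σ.2 x).card =
      Fintype.card ((Fin h → Bool) × (Fin t → Fin h → Bool)) := by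
  have h1 : ∀ a : Fin h → Bool, 2 ^ z * (univ.filter fun q : Fin t → Fin h → Bool =>
      Zero β hz a q x).card = 2 ^ (h * t) := by
    intro a
    have h2 := card_bitpoly β (t := t) hz {val x (elt β a)} (by simpa using ht)
    rw [card_singleton, mul_one, mul_comm] at h2
    rw [← h2]
    congr 2
    ext q
    simp only [mem_filter, mem_univ, true_and, mem_singleton, forall_eq]
    exact Iff.rfl
  have h3 : (univ.filter fun σ : (Fin h → Bool) × (Fin t → Fin h → Bool) =>
      Zero β hz σ.1 σ.2 x).card = ∑ a : Fin h → Bool, (univ.filter fun q : Fin t → Fin h → Bool =>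
      Zero β hz a q x).card := by
    rw [Finset.card_filter, Fintype.sum_prod_type]
    refine Finset.sum_congr rfl fun a _ => ?_
    rw [Finset.card_filter]
  rw [h3, Finset.mul_sum, sum_congr rfl fun a _ => h1 a, sum_const, smul_eq_mul, card_univ,
    Fintype.card_prod, Fintype.card_fun, Fintype.card_fun, Fintype.card_fun, Fintype.card_bool,
    Fintype.card_fin, Fintype.card_fin, pow_mul]

open Classical in
/-- few pairs `(a, q)` are such that all points of a set pass the test -/
theorem card_many {n t z w : ℕ} (β : Coord h) (hz : z ≤ h) (Z : Finset (Fin n → Bool))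
    (hZ : Z.card = t) (h1 : w + 1 ≤ z * t) (h2 : 2 ^ (w + 1) * (t * t * n) ≤ 2 ^ h) :
    2 ^ w * (univ.filter fun σ : (Fin h → Bool) × (Fin t → Fin h → Bool) =>
      ∀ x ∈ Z, Zero β hz σ.1 σ.2 x).card ≤
      Fintype.card ((Fin h → Bool) × (Fin t → Fin h → Bool)) := by
  have h3 : (univ.filter fun σ : (Fin h → Bool) × (Fin t → Fin h → Bool) =>
      ∀ x ∈ Z, Zero β hz σ.1 σ.2 x).card = ∑ a : Fin h → Bool,
      (univ.filter fun q : Fin t → Fin h → Bool => ∀ x ∈ Z, Zero β hz a q x).card := by
    rw [Finset.card_filter, Fintype.sum_prod_type]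
    refine Finset.sum_congr rfl fun a _ => ?_
    rw [Finset.card_filter]
  have h4 : ∀ a : Fin h → Bool, 2 ^ (w + 1) *
      (univ.filter fun q : Fin t → Fin h → Bool => ∀ x ∈ Z, Zero β hz a q x).card ≤
      (if ¬ Set.InjOn (fun z => val z (elt β a)) (Z : Set (Fin n → Bool)) then
        2 ^ (w + 1) * 2 ^ (h * t) else 0) + 2 ^ (h * t) := by
    intro a
    by_cases hinj : ¬ Set.InjOn (fun z => val z (elt β a)) (Z : Set (Fin n → Bool))
    · rw [if_pos hinj]
      refine le_trans ?_ (Nat.le_add_right _ _)
      have h0 : (univ.filter fun q : Fin t → Fin h → Bool => ∀ x ∈ Z, Zero β hz a q x).card ≤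
          2 ^ (h * t) := by
        refine (card_le_univ _).trans (le_of_eq ?_)
        rw [Fintype.card_fun, Fintype.card_fun, Fintype.card_bool, Fintype.card_fin,
          Fintype.card_fin, pow_mul]
      exact Nat.mul_le_mul_left _ h0
    · rw [if_neg hinj]
      rw [not_not] at hinj
      rw [zero_add]
      have h5 : (Z.image fun z => val z (elt β a)).card = t := by
        rw [card_image_of_injOn hinj, hZ]
      have h6 := card_bitpoly β (t := t) hz (Z.image fun z => val z (elt β a)) h5.le
      rw [h5] at h6
      rw [← h6, mul_comm]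
      refine Nat.mul_le_mul (le_of_eq ?_) (Nat.pow_le_pow_right (by norm_num) h1)
      congr 1
      ext q
      simp only [mem_filter, mem_univ, true_and, mem_image, forall_exists_index, and_imp,
        forall_apply_eq_imp_iff₂]
      exact Iff.rfl
  have h5 : 2 * (2 ^ w * ∑ a : Fin h → Bool,
      (univ.filter fun q : Fin t → Fin h → Bool => ∀ x ∈ Z, Zero β hz a q x).card) ≤
      2 * (2 ^ h * 2 ^ (h * t)) := by
    calc 2 * (2 ^ w * ∑ a : Fin h → Bool,
          (univ.filter fun q : Fin t → Fin h → Bool => ∀ x ∈ Z, Zero β hz a q x).card)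
        = ∑ a : Fin h → Bool, 2 ^ (w + 1) *
          (univ.filter fun q : Fin t → Fin h → Bool => ∀ x ∈ Z, Zero β hz a q x).card := by
          rw [← mul_sum]
          ring
      _ ≤ ∑ a : Fin h → Bool, ((if ¬ Set.InjOn (fun z => val z (elt β a))
            (Z : Set (Fin n → Bool)) then 2 ^ (w + 1) * 2 ^ (h * t) else 0) + 2 ^ (h * t)) :=
          sum_le_sum fun a _ => h4 a
      _ = ((univ : Finset (Fin h → Bool)).filter fun a =>
            ¬ Set.InjOn (fun z => val z (elt β a)) (Z : Set (Fin n → Bool))).card *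
            (2 ^ (w + 1) * 2 ^ (h * t)) + 2 ^ h * 2 ^ (h * t) := by
          rw [sum_add_distrib, ← sum_filter, sum_const, smul_eq_mul, sum_const, smul_eq_mul,
            card_univ, Fintype.card_fun, Fintype.card_bool, Fintype.card_fin]
      _ ≤ (t * t * n) * (2 ^ (w + 1) * 2 ^ (h * t)) + 2 ^ h * 2 ^ (h * t) := by
          have := card_noninj β Z
          rw [hZ] at this
          gcongr
      _ = (2 ^ (w + 1) * (t * t * n)) * 2 ^ (h * t) + 2 ^ h * 2 ^ (h * t) := by ring
      _ ≤ 2 ^ h * 2 ^ (h * t) + 2 ^ h * 2 ^ (h * t) := by gcongr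
      _ = _ := by ring
  rw [h3]
  refine (Nat.le_of_mul_le_mul_left h5 (by norm_num)).trans (le_of_eq ?_)
  rw [Fintype.card_prod, Fintype.card_fun, Fintype.card_fun, Fintype.card_fun, Fintype.card_bool,
    Fintype.card_fin, Fintype.card_fin, pow_mul]

end Pool.Agent.URG.BLK
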