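import Pool.Agent.URG.Defs

/-!
# Nondeterministic machines as nondeterministic branching programs

No condition on the guesses is needed here.
-/

set_option autoImplicit false

namespace Pool.Agent.URG.MACH

open Pool.Agent.Lib_helper20.SRO
open Pool.Agent.HPM (GMach GMachs)
open Pool.Agent.HPM.MANY (sim lst idx state div_eq)

variable {b : ℕ} {I V : Type}

/-- The branching program of a machine. -/
def prg (M : GMach b I V) (T : ℕ) : NBP I (Option (Fin (T + 1) × V)) where
  source := some (0, M.start)
  sink := none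
  edge u v o := (∃ (t t' : Fin (T + 1)) (s : V) (e : Bool) (g : Fin b → Bool),
      t'.val = t.val + 1 ∧ u = some (t, s) ∧ v = some (t', M.next t s e g) ∧
      o = some (M.query t s, e)) ∨
    (∃ s, M.acc s ∧ u = some (Fin.last T, s) ∧ v = none ∧ o = none)

lemma state_congr (M : GMach b I V) (x : I → Bool) {c c' : ℕ → Fin b → Bool} (t : ℕ)
    (h : ∀ i < t, c i = c' i) : M.state x c t = M.state x c' t := by
  induction t with
  | zero => rfl
  | succ t ih =>
    rw [GMach.state, GMach.state, ih (fun i hi => h i (Nat.lt_succ_of_lt hi)),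
      h t (Nat.lt_succ_self t)]

lemma walk_none {M : GMach b I V} {T : ℕ} {v : Option (Fin (T + 1) × V)} {l : List (I × Bool)}
    (h : Walk (prg M T) none v l) : l = [] := by
  rcases h with _ | ⟨he, -⟩ | ⟨y, c, he, -⟩
  · rfl
  · rcases he with ⟨_, _, _, _, _, _, h1, _⟩ | ⟨_, _, h1, _⟩ <;> exact absurd h1 (by simp)
  · rcases he with ⟨_, _, _, _, _, _, h1, _⟩ | ⟨_, _, h1, _⟩ <;> exact absurd h1 (by simp)

lemma walk_run {M : GMach b I V} {T : ℕ} {x : I → Bool}
    {u v : Option (Fin (T + 1) × V)} {l : List (I × Bool)} (h : Walk (prg M T) u v l) :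
    Agrees x l → v = none → ∀ (t : Fin (T + 1)) (s : V), u = some (t, s) →
      t.val + l.length = T ∧ ∀ c, M.state x c t = s → ∃ c', M.acc (M.state x c' T) := by
  induction h with
  | nil u =>
    intro _ hv t s hu
    rw [hu] at hv
    exact absurd hv (by simp)
  | @free u v w l he hw ih =>
    intro hl hw0 t s hu
    rcases he with ⟨_, _, _, _, _, _, _, _, h4⟩ | ⟨s', hs, h1, h2, -⟩
    · exact absurd h4 (by simp)
    · subst h2
      have hl0 := walk_none hw
      rw [hu] at h1
      have h3 := Option.some.inj h1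
      rw [Prod.mk.injEq] at h3
      obtain ⟨h3, h4⟩ := h3
      subst h3 h4
      refine ⟨by rw [hl0]; simp, fun c hc => ⟨c, ?_⟩⟩
      rw [Fin.val_last] at hc
      rw [hc]
      exact hs
  | @test u v w l y c he hw ih =>
    intro hl hw0 t s hu
    have hl' : Agrees x l := fun p hp => hl p (List.mem_cons_of_mem _ hp)
    have hc : x y = c := hl (y, c) List.mem_cons_self
    rcases he with ⟨t1, t', s1, e, g, h0, h1, h2, h3⟩ | ⟨s', -, -, -, h4⟩
    · have h5 := Option.some.inj h3
      rw [Prod.mk.injEq] at h5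
      obtain ⟨h5, h6⟩ := h5
      rw [h1] at hu
      have h7 := Option.some.inj hu
      rw [Prod.mk.injEq] at h7
      obtain ⟨h7, h8⟩ := h7
      subst h7 h8
      have he : e = x (M.query t1 s1) := by rw [← h6, ← hc, h5]
      subst he
      obtain ⟨i1, i2⟩ := ih hl' hw0 t' _ h2
      refine ⟨by rw [List.length_cons]; omega, fun c₀ hc₀ => ?_⟩
      have e1 : M.state x (Function.update c₀ (t1 : ℕ) g) t1 = s1 := by
        rw [← hc₀]
        exact state_congr M x _ fun i hi => Function.update_of_ne hi.ne _ _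
      refine i2 (Function.update c₀ (t1 : ℕ) g) ?_
      rw [h0, GMach.state, e1, Function.update_self]
    · exact absurd h4 (by simp)

lemma run_walk (M : GMach b I V) (T : ℕ) (x : I → Bool) (c : ℕ → Fin b → Bool)
    (hacc : M.acc (M.state x c T)) : ∀ j (t : Fin (T + 1)), t.val + j = T →
    ∃ l, Walk (prg M T) (some (t, M.state x c t)) none l ∧ Agrees x l ∧ l.length = j := by
  intro j
  induction j with
  | zero =>
    intro t ht
    have ht' : t = Fin.last T := Fin.ext (by simpa using ht)
    refine ⟨[], Walk.free (v := none) (Or.inr ⟨_, hacc, ?_, rfl, rfl⟩) (Walk.nil _),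
      fun p hp => absurd hp (by simp), rfl⟩
    rw [ht', Fin.val_last]
  | succ j ih =>
    intro t ht
    have ht' : t.val + 1 < T + 1 := by omega
    obtain ⟨l, hw, hl, hlen⟩ := ih ⟨t.val + 1, ht'⟩ (by simp only; omega)
    refine ⟨(M.query t (M.state x c t), x (M.query t (M.state x c t))) :: l,
      Walk.test _ _ (Or.inl ⟨t, ⟨t.val + 1, ht'⟩, M.state x c t,
        x (M.query t (M.state x c t)), c t, rfl, rfl, rfl, rfl⟩) hw, ?_, ?_⟩
    · intro p hp
      rcases List.mem_cons.1 hp with rfl | hp
      · rfl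
      · exact hl p hp
    · rw [List.length_cons, hlen]

theorem prg_accepts (M : GMach b I V) (T : ℕ) (x : I → Bool) :
    (prg M T).Accepts x ↔ ∃ c, M.acc (M.state x c T) := by
  constructor
  · rintro ⟨l, hw, hl⟩
    exact (walk_run hw hl rfl 0 M.start rfl).2 (fun _ _ => false) rfl
  · rintro ⟨c, hc⟩
    obtain ⟨l, hw, hl, -⟩ := run_walk M T x c hc T 0 (by simp)
    exact ⟨l, hw, hl⟩

theorem prg_len (M : GMach b I V) (T : ℕ) (x : I → Bool) (h : (prg M T).Accepts x) :
    ∃ l, Walk (prg M T) (prg M T).source (prg M T).sink l ∧ Agrees x l ∧ l.length = T := by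
  rw [prg_accepts] at h
  obtain ⟨c, hc⟩ := h
  exact run_walk M T x c hc T 0 (by simp)

/-- **Machines are branching programs.** A machine with states `V` that reads `s ≥ 1` bits at once
gives a program with at most `2 (T s + 1) |V| 2 ^ s` nodes, in which each accepted input has an
accepting walk with `T s` tests. -/
theorem t_mach {s b T : ℕ} (hs : 0 < s) [Fintype V] {L : (I → Bool) → Prop}
    (h : InNPg s b I V T L) : ∃ (Q : Type) (_ : Fintype Q) (G : NBP I Q),
      (∀ x, G.Accepts x ↔ L x) ∧
      (∀ x, G.Accepts x → ∃ l, Walk G G.source G.sink l ∧ Agrees x l ∧ l.length = T * s) ∧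
      Fintype.card Q ≤ 2 * (T * s + 1) * Fintype.card V * 2 ^ s := by
  obtain ⟨M, hM⟩ := h
  have hfin : ∀ x c, ((sim M hs).state x c (T * s)).1 = M.state x (lst s c) T := by
    intro x c
    have h3 := (state M hs x c T 0 hs).1
    rw [add_zero, mul_comm] at h3
    exact h3
  refine ⟨Option (Fin (T * s + 1) × (V × (Fin s → Bool))), inferInstance, prg (sim M hs) (T * s),
    fun x => ?_, fun x hx => prg_len _ _ x hx, ?_⟩
  · rw [prg_accepts, hM]
    constructor
    · rintro ⟨c, hc⟩
      refine ⟨lst s c, ?_⟩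
      have hc' : M.acc ((sim M hs).state x c (T * s)).1 := hc
      rw [hfin] at hc'
      exact hc'
    · rintro ⟨c, hc⟩
      refine ⟨fun τ => c (τ / s), ?_⟩
      show M.acc ((sim M hs).state x (fun τ => c (τ / s)) (T * s)).1
      rw [hfin]
      have h8 : lst s (fun τ => c (τ / s)) = c := by
        funext t
        show c ((s * t + (s - 1)) / s) = c t
        rw [div_eq (by omega)]
      rw [h8]
      exact hc
  · have h1 : 0 < Fintype.card V := Fintype.card_pos_iff.2 ⟨M.start⟩
    rw [Fintype.card_option, Fintype.card_prod, Fintype.card_prod, Fintype.card_fin,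
      Fintype.card_fun, Fintype.card_bool, Fintype.card_fin]
    have h2 : 0 < (T * s + 1) * (Fintype.card V * 2 ^ s) := by positivity
    calc (T * s + 1) * (Fintype.card V * 2 ^ s) + 1
        ≤ 2 * ((T * s + 1) * (Fintype.card V * 2 ^ s)) := by omega
      _ = _ := by ring

end Pool.Agent.URG.MACH
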