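import Pool.Agent.URG.Nume
import Pool.Agent.URG.Mach

/-!
# The theorems
-/

set_option autoImplicit false

namespace Pool.Agent.URG

open Finset Pool.Agent.Lib_helper20.SRO
open Pool.Agent.HPM (DecOs elt)
open Pool.Agent.HPM.Fn (Coord)
open Pool.Agent.UM (InPP)

/-! ### The functions are not constant -/

/-- `goodF` is not constant. -/
lemma goodF_const {n e L : ℕ} (β : Coord (deg n e)) :
    (∃ v : VarG n e L → Bool, goodF β v = true) ∧ ∃ v : VarG n e L → Bool, goodF β v = false := by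
  obtain ⟨u⟩ : Nonempty (VarX n e → Bool) := ⟨fun _ => false⟩
  obtain ⟨y⟩ : Nonempty (Fin L × Fin n → Bool) := ⟨fun _ => false⟩
  have h1 := goodF_true β (Sum.elim (Sum.elim u fun _ => true) y) rfl
  have h2 := goodF_false β (Sum.elim (Sum.elim u fun _ => false) y) rfl
  by_cases h : Good (L := L) β u y
  · refine ⟨⟨_, h1.2 h⟩, ⟨Sum.elim (Sum.elim u fun _ => false) y, ?_⟩⟩
    have h4 := h2.2 h
    rwa [Bool.not_eq_true'] at h4
  · refine ⟨⟨Sum.elim (Sum.elim u fun _ => false) y, ?_⟩,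
      ⟨Sum.elim (Sum.elim u fun _ => true) y, ?_⟩⟩
    · by_contra h'
      rw [Bool.not_eq_true] at h'
      refine h (h2.1 ?_)
      rw [h']
      rfl
    · by_contra h'
      rw [Bool.not_eq_false] at h'
      exact h (h1.1 h')

lemma elt_zero {h : ℕ} (β : Coord h) : elt β (fun _ => false) = 0 := by
  unfold elt
  exact sum_eq_zero fun i _ => if_neg (by simp)

/-- `goodA` is not constant. -/
lemma goodA_const {n e L : ℕ} (hn : 1 ≤ n) (hL : 1 ≤ L) (β : Coord (deg n e)) :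
    (∃ v : VarA n e L → Bool, goodA β v = true) ∧ ∃ v : VarA n e L → Bool, goodA β v = false := by
  classical
  have h0 : evenWeight (fun _ : Fin n => false) = true := by
    unfold evenWeight
    simp
  constructor
  · refine ⟨Sum.elim (fun _ => false) (fun _ => false), ?_⟩
    rw [goodA_iff]
    refine fun l => ⟨h0, fun t i => ?_⟩
    have h1 : value β (fun _ : Fin (deg n e) => false)
        (fun (_ : Fin (4 ^ e)) (_ : Fin (deg n e)) => false) (fun _ : Fin n => false) = 0 := by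
      unfold value
      refine sum_eq_zero fun k _ => ?_
      rw [elt_zero, zero_mul]
    show β.repr (value β (fun _ : Fin (deg n e) => false)
        (fun (_ : Fin (4 ^ e)) (_ : Fin (deg n e)) => false) (fun _ : Fin n => false)) _ = 0
    rw [h1]
    simp
  · refine ⟨Sum.elim (fun _ => false) (fun p => decide (p.2 = ⟨0, hn⟩)), ?_⟩
    rw [← Bool.not_eq_true, goodA_iff]
    intro h
    have h1 := (h ⟨0, hL⟩).1
    have h2 : (fun j : Fin n => (Sum.elim (fun _ => false) (fun p => decide (p.2 = ⟨0, hn⟩)) :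
        VarA n e L → Bool) (Sum.inr (⟨0, hL⟩, j))) = flipAt (fun _ => false) ⟨0, hn⟩ := by
      funext j
      by_cases hj : j = ⟨0, hn⟩
      · subst hj
        simp [flipAt]
      · simp [flipAt, hj]
    rw [h2, Pool.Agent.Lib_helper45.SRO.evenWeight_flip, h0] at h1
    exact absurd h1 (by simp)

/-- A machine that reads nothing accepts all inputs or none. -/
lemma inNPg_zero {b : ℕ} {I V : Type} {T : ℕ} {L : (I → Bool) → Prop} (h : InNPg 0 b I V T L)
    (x y : I → Bool) (hx : L x) : L y := by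
  obtain ⟨M, hM⟩ := h
  have key : ∀ c t, M.state x c t = M.state y c t := by
    intro c t
    induction t with
    | zero => rfl
    | succ t ih =>
      rw [Pool.Agent.HPM.GMachs.state, Pool.Agent.HPM.GMachs.state, ih]
      congr 1
      funext i
      exact i.elim0
  rw [hM] at hx ⊢
  obtain ⟨c, hc⟩ := hx
  exact ⟨c, by rwa [← key]⟩

/-! ### Lower bounds -/

section lower

variable {W : Type} [Fintype W] [DecidableEq W] {n L : ℕ}

omit [Fintype W] in
/-- few rereads of all variables: few rereads of bits of points -/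
lemma nearly_of_few [Fintype W] {r : ℕ} {Q : Type} (G : NBP (W ⊕ (Fin L × Fin n)) Q)
    (h : G.FewRereads r) : Nearly G r := by
  left
  intro v hv
  obtain ⟨l, hl, hvl, hc⟩ := h v hv
  refine ⟨l, hl, hvl, le_trans ?_ hc⟩
  refine card_le_card_of_injOn Sum.inr ?_ Sum.inr_injective.injOn
  intro p hp
  rw [mem_coe, mem_filter] at hp ⊢
  exact ⟨mem_univ _, hp.2⟩

lemma nearly_of_short {r : ℕ} {Q : Type} (G : NBP (W ⊕ (Fin L × Fin n)) Q) (h : G.Short r) :
    Nearly G (Fintype.card W + r) := by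
  right
  intro v hv
  obtain ⟨l, hl, hvl, hc⟩ := h v hv
  refine ⟨l, hl, hvl, ?_⟩
  rw [card_all] at hc
  omega

/-- The lower bounds for nondeterministic programs and machines. -/
structure Hard (c : ℝ) (N : ℕ) (f : (W ⊕ (Fin L × Fin n) → Bool) → Bool) : Prop where
  prog : ∀ (Q : Type) [Fintype Q] (G : NBP (W ⊕ (Fin L × Fin n)) Q) (r : ℕ), (r : ℝ) ≤ c * N →
    G.FewRereads r ∨ G.Short r → G.Computes f → (2 : ℝ) ^ (c * N) ≤ Fintype.card Q
  mach : ∀ (s b T : ℕ) (V : Type) [Fintype V], (s : ℝ) ≤ c * N → (T * s : ℝ) ≤ (1 + c) * N →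
    InNPg s b (W ⊕ (Fin L × Fin n)) V T (fun v => f v = true) →
    (2 : ℝ) ^ (c * N) ≤ Fintype.card V

lemma hard_of (c0 : ℝ) (h0 : 0 < c0) (h1 : c0 ≤ 1) (hL : 1 ≤ L) (hn : 2 ≤ n)
    (hW : (Fintype.card W : ℝ) ≤ c0 / 4 * (n * L))
    (h12 : (12 * (n * L) : ℝ) ≤ 2 ^ (c0 / 4 * n)) (f : (W ⊕ (Fin L × Fin n) → Bool) → Bool)
    (hf : (∃ v, f v = true) ∧ ∃ v, f v = false) (hlow : Core c0 n L f) :
    Hard (c0 / (16 * L)) (Fintype.card (W ⊕ (Fin L × Fin n))) f := by
  have hLR : (1 : ℝ) ≤ L := by exact_mod_cast hL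
  have hL0 : (0 : ℝ) < L := by linarith
  have hnR : (2 : ℝ) ≤ n := by exact_mod_cast hn
  have hn0 : (0 : ℝ) < n := by linarith
  set N := Fintype.card (W ⊕ (Fin L × Fin n)) with hN
  have hNeq : (N : ℝ) = Fintype.card W + n * L := by
    rw [hN, card_all]
    push_cast
    ring
  have hW0 : (0 : ℝ) ≤ Fintype.card W := Nat.cast_nonneg _
  have hnL0 : (0 : ℝ) < n * L := by positivity
  have hN2 : (N : ℝ) ≤ 2 * (n * L) := by
    rw [hNeq]
    nlinarith
  have hNpos : (0 : ℝ) < N := by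
    rw [hNeq]
    linarith
  set c : ℝ := c0 / (16 * L) with hc
  have hc0 : 0 < c := by positivity
  have hcN : c * N ≤ c0 / 8 * n := by
    calc c * N ≤ c * (2 * (n * L)) := by gcongr
      _ = c0 / 8 * n := by
        rw [hc]
        field_simp
        ring
  have hcN2 : c * N ≤ c0 / 8 * (n * L) := by
    refine hcN.trans ?_
    have : (n : ℝ) ≤ n * L := by nlinarith
    have h8 : 0 ≤ c0 / 8 := by positivity
    nlinarith
  have hmono : (2 : ℝ) ^ (c * N) ≤ 2 ^ (c0 * n) := by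
    refine Real.rpow_le_rpow_of_exponent_le one_le_two (hcN.trans ?_)
    nlinarith
  constructor
  · intro Q _ G r hr hG hcomp
    refine hmono.trans ?_
    rcases hG with hG | hG
    · refine hlow r ?_ Q G hcomp (nearly_of_few G hG)
      refine hr.trans (hcN2.trans ?_)
      nlinarith
    · refine hlow (Fintype.card W + r) ?_ Q G hcomp (nearly_of_short G hG)
      push_cast
      nlinarith
  · intro s b T V _ hs hTs hV
    rcases Nat.eq_zero_or_pos s with h | hs1
    · subst h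
      obtain ⟨⟨v, hv⟩, ⟨w, hw⟩⟩ := hf
      have := inNPg_zero hV v w hv
      rw [hw] at this
      exact absurd this (by simp)
    obtain ⟨Q, _, G, hG1, hG2, hG3⟩ := MACH.t_mach hs1 hV
    have hfl : T * s ≤ N + ⌊c * N⌋₊ := by
      have e1 : ((T * s : ℕ) : ℝ) ≤ (N : ℝ) + c * N := by
        push_cast
        linarith
      have e2 : T * s ≤ ⌊(N : ℝ) + c * N⌋₊ := Nat.le_floor e1
      rw [add_comm, Nat.floor_add_natCast (by positivity)] at e2
      omega
    have hlow1 : (2 : ℝ) ^ (c0 * n) ≤ Fintype.card Q := by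
      refine hlow (Fintype.card W + ⌊c * N⌋₊) ?_ Q G (fun x => hG1 x) ?_
      · have : ((⌊c * N⌋₊ : ℕ) : ℝ) ≤ c * N := Nat.floor_le (by positivity)
        push_cast
        nlinarith
      · refine nearly_of_short G fun v hv => ?_
        obtain ⟨l, hl, hvl, hc⟩ := hG2 v hv
        exact ⟨l, hl, hvl, by omega⟩
    have hV0 : (0 : ℝ) ≤ Fintype.card V := Nat.cast_nonneg _
    have h2s : (2 : ℝ) ^ s ≤ 2 ^ (c0 / 8 * n) := by
      rw [← Real.rpow_natCast]
      exact Real.rpow_le_rpow_of_exponent_le one_le_two (hs.trans hcN)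
    have hQ : (Fintype.card Q : ℝ) ≤ 2 * (T * s + 1) * Fintype.card V * 2 ^ s := by
      exact_mod_cast hG3
    have hc1 : c ≤ 1 := by
      rw [hc, div_le_one (by positivity)]
      nlinarith
    have hTs2 : (2 * (T * s + 1) : ℝ) ≤ 2 ^ (c0 / 4 * n) := by
      refine le_trans ?_ h12
      nlinarith
    have h5 : (2 : ℝ) ^ (c0 * n) ≤ 2 ^ (c0 / 4 * n) * Fintype.card V * 2 ^ (c0 / 8 * n) := by
      refine (hlow1.trans hQ).trans ?_
      gcongr
    have h6 : (2 : ℝ) ^ (c0 * n) =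
        2 ^ (c0 / 4 * n) * 2 ^ (c0 * (5 / 8) * n) * 2 ^ (c0 / 8 * n) := by
      rw [← Real.rpow_add (by norm_num), ← Real.rpow_add (by norm_num)]
      congr 1
      ring
    rw [h6] at h5
    have h7 : (2 : ℝ) ^ (c0 * (5 / 8) * n) ≤ Fintype.card V := by
      have e1 : (0 : ℝ) < 2 ^ (c0 / 8 * n) := by positivity
      have e2 : (0 : ℝ) < 2 ^ (c0 / 4 * n) := by positivity
      have e3 := le_of_mul_le_mul_right h5 e1
      exact le_of_mul_le_mul_left e3 e2
    refine le_trans (Real.rpow_le_rpow_of_exponent_le one_le_two (hcN.trans ?_)) h7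
    nlinarith

end lower

/-- The field has coordinates. -/
lemma coord_nonempty (n e : ℕ) : Nonempty (Coord (deg n e)) := by
  have h0 : deg n e ≠ 0 := by
    have := lg_pos n
    unfold deg
    omega
  exact ⟨Module.finBasisOfFinrankEq _ _ (GaloisField.finrank 2 h0)⟩

/-! ### The theorems -/

/-- **The theorem with polarity bit.** -/
theorem main : ∃ c : ℝ, 0 < c ∧ ∃ e L κ n0 : ℕ, ∀ n ≥ n0, Nonempty (Coord (deg n e)) ∧
    ∀ (β : Coord (deg n e)) (N : ℕ), N = Fintype.card (VarG n e L) →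
    (n * L ≤ N ∧ N ≤ 2 * (n * L)) ∧
    (∀ (s b T : ℕ) (V : Type) [Fintype V], (s : ℝ) ≤ c * N → (T * s : ℝ) ≤ (1 + c) * N →
      InNPg s b (VarG n e L) V T (fun v => goodF β v = true) ∨
        InNPg s b (VarG n e L) V T (fun v => goodF β v = false) →
      (2 : ℝ) ^ (c * N) ≤ Fintype.card V) ∧
    (∀ (Q : Type) [Fintype Q] (G : NBP (VarG n e L) Q) (r : ℕ), (r : ℝ) ≤ c * N →
      G.FewRereads r ∨ G.Short r →
      G.Computes (goodF β) ∨ G.Computes (fun v => !goodF β v) →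
      (2 : ℝ) ^ (c * N) ≤ Fintype.card Q) ∧
    ∃ (V : Type) (_ : Fintype V) (w : ℕ), Fintype.card V ≤ N ^ κ ∧ 2 ^ w ≤ N ^ κ ∧
      ∀ (s T : ℕ) (σ : Fin T → Fin s → VarG n e L), (∀ i, ∃ t j, σ t j = i) →
        InPP (DecOs s (VarG n e L) V T σ) w (fun v => goodF β v = true) := by
  obtain ⟨c0, h0, h1, n2, hlow⟩ := t_core
  obtain ⟨e, L, he, hL, n1, hnum⟩ := t_num c0 h0 h1
  have hLR : (1 : ℝ) ≤ L := by exact_mod_cast hL
  refine ⟨c0 / (16 * L), by positivity, e, L, 6 * 4 ^ e + 18, n1 + n2, ?_⟩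
  intro n hn
  refine ⟨coord_nonempty n e, ?_⟩
  intro β N hN
  obtain ⟨hn2, hW, hNum, hbits, hdeg, -, h12⟩ := hnum n (by omega)
  obtain ⟨-, hF1, hF2⟩ := hlow n (by omega) e L β hNum
  have hcW : Fintype.card (VarX n e ⊕ Unit) = Fintype.card (VarX n e) + 1 := by
    rw [Fintype.card_sum, Fintype.card_unit]
  have hW' : ((Fintype.card (VarX n e ⊕ Unit) : ℕ) : ℝ) ≤ c0 / 4 * (n * L) := by
    rw [hcW]
    exact hW
  have hcst := goodF_const (L := L) β
  have hH1 : Hard (c0 / (16 * L)) N (goodF (L := L) β) := by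
    rw [hN]
    exact hard_of c0 h0 h1 hL hn2 hW' h12 _ hcst hF1
  have hH2 : Hard (c0 / (16 * L)) N (fun v : VarG n e L → Bool => !goodF β v) := by
    rw [hN]
    refine hard_of c0 h0 h1 hL hn2 hW' h12 _ ?_ hF2
    obtain ⟨⟨v, hv⟩, ⟨w, hw⟩⟩ := hcst
    exact ⟨⟨w, by rw [hw]; rfl⟩, ⟨v, by rw [hv]; rfl⟩⟩
  have hNle : n * L ≤ N := by
    rw [hN, card_all]
    omega
  have hN2 : N ≤ 2 * (n * L) := by
    have e1 : (N : ℝ) ≤ 2 * (n * L) := by
      rw [hN, card_all]
      push_cast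
      have : (0 : ℝ) ≤ n * L := by positivity
      nlinarith
    exact_mod_cast e1
  refine ⟨⟨hNle, hN2⟩, ?_, ?_, ?_⟩
  · intro s b T V _ hs hTs hV
    rcases hV with hV | hV
    · exact hH1.mach s b T V hs hTs hV
    · refine hH2.mach s b T V hs hTs ?_
      have e1 : (fun v : VarG n e L → Bool => (!goodF β v) = true) =
          fun v => goodF β v = false := by
        funext v
        simp
      rw [e1]
      exact hV
  · intro Q _ G r hr hG hcomp
    rcases hcomp with hcomp | hcomp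
    · exact hH1.prog Q G r hr hG hcomp
    · exact hH2.prog Q G r hr hG hcomp
  · obtain ⟨V, _, hV, hP⟩ := t_ppu n e L hL β
    refine ⟨V, inferInstance, bits n e L, ?_, ?_, hP⟩
    · rw [hV]
      exact hdeg.trans (Nat.pow_le_pow_left hNle _)
    · exact hbits.trans (Nat.pow_le_pow_left hNle _)

/-- **The theorem without polarity bit.** -/
theorem mainA : ∃ c : ℝ, 0 < c ∧ ∃ e L κ n0 : ℕ, ∀ n ≥ n0, Nonempty (Coord (deg n e)) ∧
    ∀ (β : Coord (deg n e)) (N : ℕ), N = Fintype.card (VarA n e L) →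
    (n * L ≤ N ∧ N ≤ 2 * (n * L)) ∧
    (∃ (Q : Type) (_ : Fintype Q) (G : NBP (VarA n e L) Q), G.SyntacticReadOnce ∧
      G.Computes (fun v => !goodA β v) ∧ Fintype.card Q ≤ N ^ κ) ∧
    (∀ (Q : Type) [Fintype Q] (G : NBP (VarA n e L) Q) (r : ℕ), (r : ℝ) ≤ c * N →
      G.FewRereads r ∨ G.Short r → G.Computes (goodA β) →
      (2 : ℝ) ^ (c * N) ≤ Fintype.card Q) ∧
    (∀ (s b T : ℕ) (V : Type) [Fintype V], (s : ℝ) ≤ c * N → (T * s : ℝ) ≤ (1 + c) * N →
      InNPg s b (VarA n e L) V T (fun v => goodA β v = true) →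
      (2 : ℝ) ^ (c * N) ≤ Fintype.card V) := by
  obtain ⟨c0, h0, h1, n2, hlow⟩ := t_core
  obtain ⟨e, L, he, hL, n1, hnum⟩ := t_num c0 h0 h1
  have hLR : (1 : ℝ) ≤ L := by exact_mod_cast hL
  refine ⟨c0 / (16 * L), by positivity, e, L, 6 * 4 ^ e + 18, n1 + n2, ?_⟩
  intro n hn
  refine ⟨coord_nonempty n e, ?_⟩
  intro β N hN
  obtain ⟨hn2, hW, hNum, -, -, hrob, h12⟩ := hnum n (by omega)
  obtain ⟨hA, -, -⟩ := hlow n (by omega) e L β hNum
  have hW' : ((Fintype.card (VarX n e) : ℕ) : ℝ) ≤ c0 / 4 * (n * L) := by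
    refine le_trans ?_ hW
    push_cast
    linarith
  have hH : Hard (c0 / (16 * L)) N (goodA (L := L) β) := by
    rw [hN]
    exact hard_of c0 h0 h1 hL hn2 hW' h12 _ (goodA_const (by omega) hL β) hA
  have hNle : n * L ≤ N := by
    rw [hN, card_all]
    omega
  have hN2 : N ≤ 2 * (n * L) := by
    have e1 : (N : ℝ) ≤ 2 * (n * L) := by
      rw [hN, card_all]
      push_cast
      have : (0 : ℝ) ≤ n * L := by positivity
      nlinarith
    exact_mod_cast e1
  refine ⟨⟨hNle, hN2⟩, ?_, fun Q _ G r hr hG hcomp => hH.prog Q G r hr hG hcomp,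
    fun s b T V _ hs hTs hV => hH.mach s b T V hs hTs hV⟩
  obtain ⟨Q, _, G, hG1, hG2, hG3⟩ := t_rob n e L β
  refine ⟨Q, inferInstance, G, hG1, hG2, ?_⟩
  rw [hG3]
  exact hrob.trans (Nat.pow_le_pow_left hNle _)

end Pool.Agent.URG
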