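import Pool.Agent.HPM.Hash

/-!
# Random tests: the union bound

As in `Pool.Agent.HPM.Hash`, for tests of any kind.
-/

set_option autoImplicit false

namespace Pool.Agent.URG.UNI

open Finset Pool.Agent.Lib_helper20.SRO
open Pool.Agent.Lib_helper20.LG.Av (card_all mix Zof)

variable {n : ℕ} {S : Type}

lemma rect {T m : ℕ} (g : S → (Fin n → Bool) → Bool) (P : Fin T → S)
    (hP : ¬ RectFree (fun x => decide (∀ t, g (P t) x = true)) m) :
    ∃ i : Finset (Fin n) × (Fin m → Fin n → Bool) × (Fin m → Fin n → Bool),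
      (Zof i).card = m * m ∧ ∀ t, ∀ z ∈ Zof i, g (P t) z = true := by
  unfold RectFree at hP
  push Not at hP
  obtain ⟨U, X, Y, hX, hY, hmX, hmY, h⟩ := hP
  obtain ⟨X', hX', hX'c⟩ := Finset.exists_subset_card_eq hmX
  obtain ⟨Y', hY', hY'c⟩ := Finset.exists_subset_card_eq hmY
  set x : Fin m → Fin n → Bool := fun i => ((X'.equivFinOfCardEq hX'c).symm i : Fin n → Bool)
    with hx
  set y : Fin m → Fin n → Bool := fun i => ((Y'.equivFinOfCardEq hY'c).symm i : Fin n → Bool)
    with hy
  have hxi : Function.Injective x := by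
    intro i j hij
    exact (X'.equivFinOfCardEq hX'c).symm.injective (Subtype.ext hij)
  have hyi : Function.Injective y := by
    intro i j hij
    exact (Y'.equivFinOfCardEq hY'c).symm.injective (Subtype.ext hij)
  have hxX : ∀ i, x i ∈ X := fun i => hX' ((X'.equivFinOfCardEq hX'c).symm i).2
  have hyY : ∀ i, y i ∈ Y := fun i => hY' ((Y'.equivFinOfCardEq hY'c).symm i).2
  refine ⟨(U, x, y), ?_, ?_⟩
  · rw [Zof, card_image_of_injective]
    · rw [card_univ, Fintype.card_prod, Fintype.card_fin]
    · rintro ⟨i, j⟩ ⟨i', j'⟩ hij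
      simp only at hij
      have e1 : x i = x i' := by
        funext c
        by_cases hc : c ∈ U
        · have := congrFun hij c
          simpa [mix, hc] using this
        · rw [hX _ (hxX i) c hc, hX _ (hxX i') c hc]
      have e2 : y j = y j' := by
        funext c
        by_cases hc : c ∈ U
        · rw [hY _ (hyY j) c hc, hY _ (hyY j') c hc]
        · have := congrFun hij c
          simpa [mix, hc] using this
      rw [hxi e1, hyi e2]
  · intro t z hz
    rw [Zof, mem_image] at hz
    obtain ⟨j, -, rfl⟩ := hz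
    have h1 := h (x j.1) (hxX _) (y j.2) (hyY _)
    have h2 : decide (∀ t, g (P t) (mix U (x j.1) (y j.2)) = true) = true :=
      Bool.eq_true_of_not_eq_false h1
    rw [decide_eq_true_eq] at h2
    exact h2 t

/-- The union bound: `u` bits are the price of a test for one point, `w` bits for the points of a
rectangle; `E` is the set of the interesting points. -/
theorem t_uni [Fintype S] [Nonempty S] {u w K m : ℕ} (g : S → (Fin n → Bool) → Bool)
    (E : Finset (Fin n → Bool)) (hE : 0 < E.card)
    (h1 : ∀ z, 2 ^ u * (univ.filter fun σ => g σ z = true).card = Fintype.card S)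
    (h2 : ∀ Z : Finset (Fin n → Bool), Z.card = m * m →
      2 ^ w * (univ.filter fun σ => ∀ z ∈ Z, g σ z = true).card ≤ Fintype.card S)
    (h3 : u * K + 2 + n + 2 * (n * m) ≤ w * K) :
    ∃ P : Fin K → S, RectFree (fun x => decide (∀ t, g (P t) x = true)) m ∧
      E.card ≤ 2 ^ (u * K + 1) *
        (E.filter fun x : Fin n → Bool => decide (∀ t, g (P t) x = true) = true).card := by
  classical
  by_contra hcon
  push Not at hcon
  set Ω := Fintype.card (Fin K → S) with hΩ
  have hΩ0 : 0 < Ω := Fintype.card_pos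
  have hΩS : Ω = Fintype.card S ^ K := by
    rw [hΩ, Fintype.card_fun, Fintype.card_fin]
  -- the bad families
  set B : Finset (Fin K → S) := univ.filter (fun P =>
    ¬ RectFree (fun x => decide (∀ t, g (P t) x = true)) m) with hB
  have hBcard : 2 ^ (w * K) * B.card ≤ 2 ^ (n + 2 * (n * m)) * Ω := by
    set I := (univ : Finset (Finset (Fin n) × (Fin m → Fin n → Bool) ×
      (Fin m → Fin n → Bool))).filter (fun i => (Zof i).card = m * m) with hI
    have a1 : B ⊆ I.biUnion (fun i => univ.filter
        (fun P : Fin K → S => ∀ t, ∀ z ∈ Zof i, g (P t) z = true)) := by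
      intro P hP
      rw [hB, mem_filter] at hP
      obtain ⟨i, hi1, hi2⟩ := rect g P hP.2
      rw [mem_biUnion]
      refine ⟨i, ?_, ?_⟩
      · rw [hI, mem_filter]; exact ⟨mem_univ _, hi1⟩
      · rw [mem_filter]; exact ⟨mem_univ _, hi2⟩
    have a3 : ∀ i ∈ I, 2 ^ (w * K) * (univ.filter (fun P : Fin K → S =>
        ∀ t, ∀ z ∈ Zof i, g (P t) z = true)).card ≤ Ω := by
      intro i hi
      rw [card_all (fun σ : S => ∀ z ∈ Zof i, g σ z = true), hΩS, pow_mul, ← mul_pow]
      exact Nat.pow_le_pow_left (h2 (Zof i) (mem_filter.mp hi).2) K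
    have a2 : 2 ^ (w * K) * B.card ≤ ∑ i ∈ I, Ω := by
      refine (Nat.mul_le_mul_left _ ((card_le_card a1).trans card_biUnion_le)).trans ?_
      rw [Finset.mul_sum]
      exact Finset.sum_le_sum a3
    rw [Finset.sum_const, smul_eq_mul] at a2
    refine a2.trans (Nat.mul_le_mul_right _ ?_)
    refine (card_filter_le _ _).trans ?_
    rw [card_univ]
    simp only [Fintype.card_prod, Fintype.card_finset, Fintype.card_fin, Fintype.card_fun,
      Fintype.card_bool]
    rw [← pow_mul, ← pow_add, ← pow_add]
    refine Nat.pow_le_pow_right (by norm_num) (le_of_eq ?_)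
    ring
  -- the sum of the numbers of accepted points
  set acc : (Fin K → S) → ℕ := fun P =>
    (E.filter (fun x : Fin n → Bool => decide (∀ t, g (P t) x = true) = true)).card
    with hacc
  have hup : ∀ P, 2 ^ (u * K + 1) * acc P ≤
      (if P ∈ B then 2 ^ (u * K + 1) * E.card else 0) + E.card := by
    intro P
    by_cases hP : P ∈ B
    · rw [if_pos hP]
      have : acc P ≤ E.card := card_filter_le _ _
      have := Nat.mul_le_mul_left (2 ^ (u * K + 1)) this
      omega
    · rw [if_neg hP, zero_add]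
      rw [hB, mem_filter, not_and, not_not] at hP
      exact (hcon _ (hP (mem_univ _))).le
  have hsum1 : 2 ^ (u * K + 1) * ∑ P, acc P ≤
      B.card * (2 ^ (u * K + 1) * E.card) + Ω * E.card := by
    rw [Finset.mul_sum]
    refine (Finset.sum_le_sum (fun P _ => hup P)).trans ?_
    rw [Finset.sum_add_distrib, Finset.sum_ite_mem, Finset.univ_inter, Finset.sum_const,
      Finset.sum_const, smul_eq_mul, smul_eq_mul, card_univ]
  have hoff : ∀ b : Fin n → Bool, 2 ^ (u * K) *
      (univ.filter (fun P : Fin K → S => ∀ t, g (P t) b = true)).card = Ω := by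
    intro b
    rw [card_all (fun σ : S => g σ b = true), hΩS, pow_mul, ← mul_pow, h1]
  have hsum2 : 2 ^ (u * K) * ∑ P, acc P = E.card * Ω := by
    have e1 : ∑ P, acc P = ∑ b ∈ E,
        (univ.filter (fun P : Fin K → S => ∀ t, g (P t) b = true)).card := by
      have e2 : ∀ P, acc P = ∑ b ∈ E,
          if (∀ t, g (P t) b = true) then 1 else 0 := by
        intro P
        rw [← card_filter]
        simp only [hacc]
        refine congrArg Finset.card (Finset.filter_congr fun b _ => ?_)
        simp
      rw [Finset.sum_congr rfl (fun P _ => e2 P), Finset.sum_comm]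
      refine Finset.sum_congr rfl fun b _ => ?_
      rw [← card_filter]
    have e4 : ∑ _b ∈ E, Ω = E.card * Ω := by
      rw [Finset.sum_const, smul_eq_mul]
    rw [e1, Finset.mul_sum, ← e4]
    exact Finset.sum_congr rfl (fun b _ => hoff b)
  -- conclusion
  have f1 : E.card * Ω ≤ E.card * (2 ^ (u * K + 1) * B.card) := by
    have h4 : 2 ^ (u * K + 1) * ∑ P, acc P = 2 * (2 ^ (u * K) * ∑ P, acc P) := by ring
    rw [h4, hsum2] at hsum1
    have h3 : B.card * (2 ^ (u * K + 1) * E.card) = E.card * (2 ^ (u * K + 1) * B.card) := by ring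
    have h5 : Ω * E.card = E.card * Ω := by ring
    rw [h3, h5] at hsum1
    omega
  have f2 : Ω ≤ 2 ^ (u * K + 1) * B.card := Nat.le_of_mul_le_mul_left f1 hE
  have f3 : 2 ^ (n + 2 * (n * m)) * (2 ^ (u * K + 2) * B.card) ≤ 2 ^ (n + 2 * (n * m)) * Ω := by
    refine le_trans ?_ hBcard
    rw [← mul_assoc, ← pow_add]
    refine Nat.mul_le_mul_right _ (Nat.pow_le_pow_right (by norm_num) ?_)
    omega
  have f4 : 2 ^ (u * K + 2) * B.card ≤ Ω := Nat.le_of_mul_le_mul_left f3 (by positivity)
  have f5 : 2 ^ (u * K + 2) * B.card = 2 * (2 ^ (u * K + 1) * B.card) := by ring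
  omega

end Pool.Agent.URG.UNI
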