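import Pool.Agent.URG.Avg
import Pool.Agent.URG.Uni
import Pool.Agent.URG.Blk

/-!
# The lower bound: one point, and short walks
-/

set_option autoImplicit false

namespace Pool.Agent.URG

open Finset Pool.Agent.Lib_helper20.SRO
open Pool.Agent.HPM.Fn (Coord)

/-! ### One point -/

open Classical in
/-- the one-point function: the number of ones is even and all tests are passed -/
noncomputable def one {n e : ℕ} (β : Coord (deg n e)) (u : VarX n e → Bool) (x : Fin n → Bool) :
    Bool := evenWeight x && decide (∀ t, Pass β u t x)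

lemma rigid_one {n e : ℕ} (β : Coord (deg n e)) (u : VarX n e → Bool) : Rigid (one β u) := by
  intro b x hb
  unfold one at hb ⊢
  rw [Bool.and_eq_true] at hb
  rw [Pool.Agent.Lib_helper45.SRO.evenWeight_flip, hb.1]
  rfl

lemma num_h3 (n e : ℕ) (hn : 2 ≤ n) (he : 1 ≤ e) (hl : 8 ≤ lg n) :
    zs n e * pols n e + 2 + n + 2 * (n * 2 ^ e) ≤ (lg n - 1) * pols n e := by
  have h1 : 4 * (2 ^ e + 1) * n ≤ lg n * pols n e := by
    unfold pols
    exact (Nat.lt_mul_div_succ _ (by omega)).le
  have h2 : zs n e ≤ lg n / 4 + 1 := by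
    unfold zs
    have : lg n / 4 ^ e ≤ lg n / 4 := by
      refine Nat.div_le_div_left ?_ (by norm_num)
      calc 4 = 4 ^ 1 := by norm_num
        _ ≤ 4 ^ e := Nat.pow_le_pow_right (by norm_num) he
    omega
  obtain ⟨d, hd⟩ : ∃ d, lg n - 1 = zs n e + d := ⟨lg n - 1 - zs n e, by omega⟩
  have h3 : lg n ≤ 2 * d := by omega
  have h4 : lg n * pols n e ≤ 2 * d * pols n e := Nat.mul_le_mul_right _ h3
  rw [hd]
  nlinarith

/-- Good tests. -/
theorem t_good (n e : ℕ) (β : Coord (deg n e)) (hn : 2 ≤ n) (he : 1 ≤ e) (hl : 8 ≤ lg n) :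
    ∃ u : VarX n e → Bool, RectFree (one β u) (2 ^ e) ∧
      2 ^ n ≤ 2 ^ (zs n e * pols n e + 2) *
        (univ.filter fun x : Fin n → Bool => one β u x = true).card := by
  classical
  let g₀ : (Fin (deg n e) → Bool) × (Fin (4 ^ e) → Fin (deg n e) → Bool) → (Fin n → Bool) → Bool :=
    fun σ x => decide (Zero β (zs_le n e) σ.1 σ.2 x)
  set E := univ.filter fun x : Fin n → Bool => evenWeight x = true with hE
  have hE2 : 2 * E.card = 2 ^ n := Pool.Agent.Lib_helper45.SRO.card_even (by omega)
  have hmm : 2 ^ e * 2 ^ e = 4 ^ e := by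
    rw [← mul_pow]
    norm_num
  have hn' : n < 2 ^ lg n := Nat.lt_pow_succ_log_self (by norm_num) n
  obtain ⟨P, hrect, hdense⟩ := UNI.t_uni (u := zs n e) (w := lg n - 1) (K := pols n e)
    (m := 2 ^ e) g₀ E (by
      have : 0 < 2 ^ n := by positivity
      omega) (fun z => by
      have h := BLK.card_one β (t := 4 ^ e) (zs_le n e) (Nat.one_le_pow _ _ (by norm_num)) z
      simpa only [g₀, decide_eq_true_eq] using h)
    (fun Z hZ => by
      rw [hmm] at hZ
      have h := BLK.card_many β (t := 4 ^ e) (z := zs n e) (w := lg n - 1) (zs_le n e) Z hZ (by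
        rw [Nat.sub_add_cancel (lg_pos n)]
        unfold zs
        rw [mul_comm]
        exact (Nat.lt_mul_div_succ _ (by positivity)).le) (by
        rw [Nat.sub_add_cancel (lg_pos n)]
        unfold deg
        have h4 : (4 : ℕ) ^ e * 4 ^ e = 2 ^ (4 * e) := by
          rw [← mul_pow, pow_mul]
          norm_num
        rw [h4, two_mul, pow_add, pow_add]
        calc 2 ^ lg n * (2 ^ (4 * e) * n) ≤ 2 ^ lg n * (2 ^ (4 * e) * 2 ^ lg n) := by gcongr
          _ = _ := by ring)
      simpa only [g₀, decide_eq_true_eq] using h)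
    (num_h3 n e hn he hl)
  set g : (Fin n → Bool) → Bool := fun x => decide (∀ t, g₀ (P t) x = true) with hg
  let u : VarX n e → Bool := fun p => Sum.elim (P p.1).1 (fun z => (P p.1).2 z.1 z.2) p.2
  have hone : ∀ x, one β u x = (evenWeight x && g x) := by
    intro x
    unfold one
    rw [hg]
    simp only [g₀, decide_eq_true_eq]
    rfl
  refine ⟨u, ?_, ?_⟩
  · intro U X Y hX hY hXm hYm
    obtain ⟨a, ha, a', ha', h⟩ := hrect U X Y hX hY hXm hYm
    refine ⟨a, ha, a', ha', ?_⟩
    rw [hone]
    have h' : g (fun x => if x ∈ U then a x else a' x) = false := h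
    rw [h', Bool.and_false]
  · have h1 : (univ.filter fun x : Fin n → Bool => one β u x = true) =
        E.filter fun x : Fin n → Bool => g x = true := by
      ext x
      rw [hE, filter_filter, mem_filter, mem_filter, hone, Bool.and_eq_true]
    rw [h1]
    calc 2 ^ n = 2 * E.card := hE2.symm
      _ ≤ 2 * (2 ^ (zs n e * pols n e + 1) *
          (E.filter fun x : Fin n → Bool => g x = true).card) := Nat.mul_le_mul_left _ hdense
      _ = _ := by ring

/-! ### Walks -/

lemma cnt_eq_zero {V : Type} [DecidableEq V] {l : List (V × Bool)} {x : V} :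
    cnt l x = 0 ↔ x ∉ l.map Prod.fst := List.count_eq_zero

lemma sum_cnt_le {V X : Type} [DecidableEq V] [Fintype X] {ι : X → V} (hι : Function.Injective ι)
    (l : List (V × Bool)) : ∑ p, cnt l (ι p) ≤ l.length := by
  classical
  have e1 : ∀ (s : List V), ∑ p, s.count (ι p) ≤ s.length := by
    intro s
    induction s with
    | nil => simp
    | cons a s ih =>
      simp only [List.count_cons, List.length_cons, sum_add_distrib, beq_iff_eq]
      have : ∑ p, (if a = ι p then 1 else 0) ≤ 1 := by
        rw [← card_filter, card_le_one]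
        intro p hp q hq
        rw [mem_filter] at hp hq
        exact hι (hp.2.symm.trans hq.2)
      omega
  have := e1 (l.map Prod.fst)
  rwa [List.length_map] at this

/-- A short accepting walk tests few bits of the points more than once. -/
lemma short_few {L n : ℕ} {W Q : Type} [DecidableEq W] (G : NBP (W ⊕ (Fin L × Fin n)) Q)
    (w : W → Bool) (g : (Fin n → Bool) → Bool) (hrig : Rigid g)
    (hacc : ∀ b : Fin L × Fin n → Bool, G.Accepts (Sum.elim w b) →
      ∀ l, g (fun j => b (l, j)) = true) (b : Fin L × Fin n → Bool)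
    (l : List ((W ⊕ (Fin L × Fin n)) × Bool)) (hl : Walk G G.source G.sink l)
    (hb : Agrees (Sum.elim w b) l) :
    (univ.filter fun p : Fin L × Fin n => 2 ≤ cnt l (Sum.inr p)).card + L * n ≤ l.length := by
  have h1 : ∀ p : Fin L × Fin n, 1 ≤ cnt l (Sum.inr p) := by
    intro p
    by_contra hcon
    have h0 : cnt l (Sum.inr p) = 0 := by omega
    have hnot := cnt_eq_zero.1 h0
    have h2 : Agrees (Sum.elim w (flipAt b p)) l := by
      have h3 := Pool.Agent.Lib_helper45.SRO.agrees_flip hb hnot
      have h4 : flipAt (Sum.elim w b) (Sum.inr p) = Sum.elim w (flipAt b p) := by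
        funext v
        rcases v with v | v
        · simp [flipAt]
        · by_cases hv : v = p
          · subst hv
            simp [flipAt]
          · simp [flipAt, hv]
      rwa [h4] at h3
    have h5 := hacc b ⟨l, hl, hb⟩ p.1
    have h6 := hacc _ ⟨l, hl, h2⟩ p.1
    have h7 : (fun j => flipAt b p (p.1, j)) = flipAt (fun j => b (p.1, j)) p.2 := by
      funext j
      by_cases hj : j = p.2
      · subst hj
        simp [flipAt]
      · have : ((p.1, j) : Fin L × Fin n) ≠ p := fun h => hj (by rw [← h])
        simp [flipAt, hj, this]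
    rw [h7, hrig _ _ h5] at h6
    exact Bool.false_ne_true h6
  have h2 : ∑ p : Fin L × Fin n, (1 + if 2 ≤ cnt l (Sum.inr p) then 1 else 0) ≤
      ∑ p : Fin L × Fin n, cnt l (Sum.inr p) := by
    refine sum_le_sum fun p _ => ?_
    have := h1 p
    split_ifs with h
    · exact h
    · omega
  rw [sum_add_distrib, ← card_filter, sum_const, card_univ, Fintype.card_prod, Fintype.card_fin,
    Fintype.card_fin, smul_eq_mul, mul_one] at h2
  have h3 : ∑ p : Fin L × Fin n, cnt l (Sum.inr p) ≤ l.length := sum_cnt_le Sum.inr_injective l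
  have h4 : L * n = n * L := mul_comm _ _
  omega

end Pool.Agent.URG
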