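import Pool.Agent.URG.Mem

/-!
# Upper bound: PP mode for every reading schedule
-/

set_option autoImplicit false

namespace Pool.Agent.URG

open Finset hiding val
open Pool.Agent.HPM (elt val DecOs)
open Pool.Agent.HPM.SCH (decOs_sum inPP_of_count)
open Pool.Agent.HPM.Fn (Coord)
open Pool.Agent.UM (InPP)
open Pool.Agent.Lib_helper20.SRO (evenWeight)
open MEM

variable {n e L : ℕ}

namespace PPU

/-- the input without the polarity bit -/
def cut (v : VarG n e L → Bool) : VarA n e L → Bool
  | Sum.inl i => v (Sum.inl (Sum.inl i))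
  | Sum.inr p => v (Sum.inr p)

/-- contributions for the input with the polarity bit -/
noncomputable def ex (g : VarA n e L → Bool → St n e) : VarG n e L → Bool → St n e
  | Sum.inl (Sum.inl i), y => g (Sum.inl i) y
  | Sum.inl (Sum.inr _), y => (0, if y then 1 else 0)
  | Sum.inr p, y => g (Sum.inr p) y

theorem sum_ex (g : VarA n e L → Bool → St n e) (v : VarG n e L → Bool) :
    ∑ i, ex g i (v i) = ∑ i, g i (cut v i) + (0, if pol v then 1 else 0) := by
  rw [Fintype.sum_sum_type, Fintype.sum_sum_type, Fintype.sum_sum_type]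
  have h1 : ∀ i : VarX n e, ex g (Sum.inl (Sum.inl i) : VarG n e L) (v (Sum.inl (Sum.inl i))) =
      g (Sum.inl i) (cut v (Sum.inl i)) := fun i => rfl
  have h2 : ∀ i : Unit, ex g (Sum.inl (Sum.inr i) : VarG n e L) (v (Sum.inl (Sum.inr i))) =
      (0, if pol v then 1 else 0) := fun i => rfl
  have h3 : ∀ i : Fin L × Fin n, ex g (Sum.inr i : VarG n e L) (v (Sum.inr i)) =
      g (Sum.inr i) (cut v (Sum.inr i)) := fun i => rfl
  rw [sum_congr rfl fun i _ => h1 i, sum_congr rfl fun i _ => h2 i, sum_congr rfl fun i _ => h3 i]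
  simp only [univ_unique, sum_singleton]
  exact add_right_comm _ _ _

/-- the point `l` -/
abbrev pt (v : VarG n e L → Bool) (l : Fin L) : Fin n → Bool := fun j => v (Sum.inr (l, j))

/-- the tests -/
abbrev ts (v : VarG n e L → Bool) : VarX n e → Bool := fun i => v (Sum.inl (Sum.inl i))

/-- acceptance of the members -/
def ac (β : Coord (deg n e)) : Gs n e L ⊕ Fin L → St n e → Prop
  | Sum.inl ω, u => Additive.toMul u.1.1 = 1 ∧ (ZP β ω u.1.2 ↔ u.2 = 1)
  | Sum.inr _, u => u.2 = 1

/-- the sets decided by the members -/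
def Pr (β : Coord (deg n e)) : Gs n e L ⊕ Fin L → (VarG n e L → Bool) → Prop
  | Sum.inl ω, v => Right ω (cut v) ∧ (Pass β (ts v) ω.1.1 (pt v ω.1.2) ↔ pol v = true)
  | Sum.inr l, v => evenWeight (pt v l) = true ↔ pol v = true

theorem pol_iff (v : VarG n e L → Bool) :
    ((if pol v = true then (1 : ZMod 2) else 0) = 1) ↔ pol v = true := by
  cases pol v <;> simp

theorem ac_iff (β : Coord (deg n e)) (m : Gs n e L ⊕ Fin L) (v : VarG n e L → Bool) :
    Pr β m v ↔ ac β m (∑ i, ex (hx β m) i (v i)) := by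
  rw [sum_ex]
  rcases m with ω | l
  · unfold ac Pr
    simp only [Prod.fst_add, Prod.snd_add, add_zero, sum_ok, sum_val, sum_snd, zero_add, pol_iff]
    refine and_congr_right fun h => ?_
    rw [zp_iff β ω (cut v) h]
    exact Iff.rfl
  · unfold ac Pr
    simp only [Prod.snd_add, sum_par]
    rw [even_iff]
    have e1 : (∑ j, if cut v (Sum.inr (l, j)) then (1 : ZMod 2) else 0) =
        ∑ j, if pt v l j then (1 : ZMod 2) else 0 := rfl
    rw [e1]
    have key : ∀ (p : Bool) (S : ZMod 2), (S = 0 ↔ p = true) ↔ S + (if p then 1 else 0) = 1 := by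
      decide
    exact key _ _

/-- the pairs which are counted -/
theorem card_Pr (β : Coord (deg n e)) (v : VarG n e L → Bool) :
    Nat.card {ω : Gs n e L // Pr β (Sum.inl ω) v} =
      Nat.card {q : Fin (pols n e) × Fin L // Pass β (ts v) q.1 (pt v q.2) ↔ pol v = true} := by
  refine Nat.card_congr ⟨fun ω => ⟨ω.1.1, ω.2.2⟩, fun q => ⟨(q.1,
    (fun i => v (Sum.inl (Sum.inl (q.1.1, Sum.inl i))),
    fun k i => v (Sum.inl (Sum.inl (q.1.1, Sum.inr (k, i)))))), ⟨rfl, rfl⟩, q.2⟩, ?_, ?_⟩
  · rintro ⟨⟨q, a, b⟩, ⟨h1, h2⟩, h4⟩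
    simp only at h1 h2
    subst h1 h2
    rfl
  · rintro ⟨q, hq⟩
    rfl

lemma count_iff {A B K : ℕ} (β : Coord (deg n e)) (v : VarG n e L → Bool)
    (hA : A = Nat.card {q : Fin (pols n e) × Fin L //
      Pass β (ts v) q.1 (pt v q.2) ↔ pol v = true})
    (hB : B = Nat.card {l : Fin L // evenWeight (pt v l) = true ↔ pol v = true})
    (hK : K = pols n e * L + L) (hK1 : 1 ≤ K) :
    goodF β v = true ↔ K - 1 < A + (B + if pol v = false then K - 1 else 0) := by
  classical
  unfold goodF
  rw [decide_eq_true_iff]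
  rcases hp : pol v with _ | _
  · rw [if_pos rfl]
    have h1 : (Good β (fun i => v (Sum.inl (Sum.inl i))) (fun p => v (Sum.inr p)) ↔
        false = true) ↔ (∃ q : Fin (pols n e) × Fin L, ¬ Pass β (ts v) q.1 (pt v q.2)) ∨
        ∃ l, ¬ evenWeight (pt v l) = true := by
      unfold Good
      simp only [Bool.false_eq_true, iff_false, not_forall, not_and_or, Prod.exists]
      constructor
      · rintro ⟨l, h | ⟨t, h⟩⟩
        · exact Or.inr ⟨l, h⟩
        · exact Or.inl ⟨t, l, h⟩
      · rintro (⟨t, l, h⟩ | ⟨l, h⟩)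
        · exact ⟨l, Or.inr ⟨t, h⟩⟩
        · exact ⟨l, Or.inl h⟩
    have h2 : 0 < A ↔ ∃ q : Fin (pols n e) × Fin L, ¬ Pass β (ts v) q.1 (pt v q.2) := by
      rw [hA, Finite.card_pos_iff, nonempty_subtype]
      refine exists_congr fun q => ?_
      rw [hp]
      simp
    have h3 : 0 < B ↔ ∃ l, ¬ evenWeight (pt v l) = true := by
      rw [hB, Finite.card_pos_iff, nonempty_subtype]
      refine exists_congr fun q => ?_
      rw [hp]
      simp
    rw [h1, ← h2, ← h3]
    omega
  · rw [if_neg (by simp)]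
    have h2 : A ≤ pols n e * L ∧ (A = pols n e * L ↔ ∀ q : Fin (pols n e) × Fin L,
        Pass β (ts v) q.1 (pt v q.2)) := by
      have e1 : A = (univ.filter fun q : Fin (pols n e) × Fin L =>
          Pass β (ts v) q.1 (pt v q.2)).card := by
        rw [hA, Nat.card_eq_fintype_card, Fintype.card_subtype]
        congr 1
        ext q
        rw [mem_filter, mem_filter, hp]
        simp
      have e2 : pols n e * L = (univ : Finset (Fin (pols n e) × Fin L)).card := by
        rw [card_univ, Fintype.card_prod, Fintype.card_fin, Fintype.card_fin]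
      rw [e1, e2]
      refine ⟨card_filter_le _ _, ?_⟩
      rw [card_filter_eq_iff]
      simp
    have h3 : B ≤ L ∧ (B = L ↔ ∀ l, evenWeight (pt v l) = true) := by
      have e1 : B = (univ.filter fun l : Fin L => evenWeight (pt v l) = true).card := by
        rw [hB, Nat.card_eq_fintype_card, Fintype.card_subtype]
        congr 1
        ext q
        rw [mem_filter, mem_filter, hp]
        simp
      have e2 : L = (univ : Finset (Fin L)).card := by
        rw [card_univ, Fintype.card_fin]
      have e3 : B ≤ (univ : Finset (Fin L)).card ∧ (B = (univ : Finset (Fin L)).card ↔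
          ∀ l, evenWeight (pt v l) = true) := by
        rw [e1]
        refine ⟨card_filter_le _ _, ?_⟩
        rw [card_filter_eq_iff]
        simp
      rwa [← e2] at e3
    have h1 : (Good β (fun i => v (Sum.inl (Sum.inl i))) (fun p => v (Sum.inr p)) ↔
        true = true) ↔ (∀ q : Fin (pols n e) × Fin L, Pass β (ts v) q.1 (pt v q.2)) ∧
        ∀ l, evenWeight (pt v l) = true := by
      unfold Good
      simp only [iff_true, Prod.forall]
      constructor
      · exact fun h => ⟨fun t l => (h l).2 t, fun l => (h l).1⟩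
      · exact fun h l => ⟨h.2 l, fun t => h.1 t l⟩
    rw [h1, ← h2.2, ← h3.2]
    have := h2.1
    have := h3.1
    omega

end PPU

open PPU

/-- the number of random bits in the upper bound -/
def bits (n e L : ℕ) : ℕ := Nat.log 2 (pols n e * L) + deg n e * (4 ^ e + 1) + 3

lemma pols_pos (n e : ℕ) : 1 ≤ pols n e := Nat.le_add_left 1 _

/-- **Upper bound for every schedule.** `goodF` is in PP mode of deterministic machines with
`2 ^ (deg + 2)` states that read the cells in any given schedule. -/
theorem t_ppu (n e L : ℕ) (hL : 1 ≤ L) (β : Coord (deg n e)) : ∃ (V : Type) (_ : Fintype V),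
    Fintype.card V = 2 ^ (deg n e + 2) ∧
    ∀ (s T : ℕ) (σ : Fin T → Fin s → VarG n e L), (∀ i, ∃ t j, σ t j = i) →
      InPP (DecOs s (VarG n e L) V T σ) (bits n e L) (fun v => goodF β v = true) := by
  classical
  have hfin : Fintype (St n e) := Fintype.ofFinite _
  refine ⟨St n e, hfin, ?_, fun s T σ hσ => ?_⟩
  · rw [← Nat.card_eq_fintype_card, card_St]
  have i₀ : VarG n e L := Sum.inl (Sum.inr ())
  have hcon : ∀ Q : Prop, DecOs s (VarG n e L) (St n e) T σ (fun _ => Q) := fun Q =>
    decOs_sum i₀ σ hσ (fun _ _ => (0 : St n e)) (fun _ => Q)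
  have hpol : DecOs s (VarG n e L) (St n e) T σ (fun v => pol v = false) := by
    have h := decOs_sum i₀ σ hσ (ex (n := n) (e := e) (L := L) fun _ _ => 0) (fun u => u.2 = 0)
    have e1 : (fun v : VarG n e L → Bool => pol v = false) =
        fun v => (∑ i, ex (n := n) (e := e) (L := L) (fun _ _ => 0) i (v i)).2 = 0 := by
      funext v
      rw [sum_ex]
      simp only [sum_const_zero, zero_add]
      cases pol v <;> simp
    rw [e1]
    exact h
  have hpr : ∀ m : Gs n e L ⊕ Fin L, DecOs s (VarG n e L) (St n e) T σ (Pr β m) := by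
    intro m
    have h := decOs_sum i₀ σ hσ (ex (hx β m)) (ac β m)
    have e1 : Pr β m = fun v => ac β m (∑ i, ex (hx β m) i (v i)) := by
      funext v
      exact propext (ac_iff β m v)
    rw [e1]
    exact h
  set K := pols n e * L + L with hK
  let Ω : Type := Gs n e L ⊕ (Fin L ⊕ Fin (K - 1))
  let P : Ω → (VarG n e L → Bool) → Prop := Sum.elim (fun ω => Pr β (Sum.inl ω))
    (Sum.elim (fun l => Pr β (Sum.inr l)) (fun _ v => pol v = false))
  have hpols := pols_pos n e
  have hLL : L ≤ pols n e * L := Nat.le_mul_of_pos_left L hpols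
  have hlog : pols n e * L < 2 ^ (Nat.log 2 (pols n e * L) + 1) :=
    Nat.lt_pow_succ_log_self (by norm_num) _
  set D := deg n e * (4 ^ e + 1) with hD
  set m := Nat.log 2 (pols n e * L) + 1 with hm
  have h1D : 1 ≤ 2 ^ D := Nat.one_le_two_pow
  have hW : bits n e L = (m + D + 1) + 1 := by
    unfold bits
    omega
  have hpow : 2 ^ (m + D + 1) = 2 * (2 ^ m * 2 ^ D) := by
    rw [pow_succ, pow_add]
    ring
  have hbig : pols n e * L * 2 ^ D + (pols n e * L) * 2 ^ D ≤ 2 * (2 ^ m * 2 ^ D) := by
    have := Nat.mul_le_mul_right (2 ^ D) hlog.le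
    omega
  have hKle : K ≤ 2 * (pols n e * L) * 2 ^ D := by
    calc K ≤ 2 * (pols n e * L) * 1 := by omega
      _ ≤ _ := Nat.mul_le_mul_left _ h1D
  rw [hW]
  refine inPP_of_count (hcon True) (hcon False) P ?_ (m + D + 1) (K - 1) ?_ ?_ _ fun x => ?_
  · rintro (ω | l | p)
    · exact hpr (Sum.inl ω)
    · exact hpr (Sum.inr l)
    · exact hpol
  · rw [hpow]
    refine (Nat.sub_le _ _).trans (hKle.trans ?_)
    calc 2 * (pols n e * L) * 2 ^ D = pols n e * L * 2 ^ D + (pols n e * L) * 2 ^ D := by ring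
      _ ≤ _ := hbig
  · show Fintype.card (Gs n e L ⊕ (Fin L ⊕ Fin (K - 1))) ≤ _
    rw [Fintype.card_sum, Fintype.card_sum, card_Gs, Fintype.card_fin, Fintype.card_fin, ← hD,
      hpow]
    have h5 : L ≤ pols n e * L * 2 ^ D := hLL.trans (Nat.le_mul_of_pos_right _ h1D)
    omega
  · have h1 : Nat.card {ω : Ω // P ω x} =
        Nat.card {q : Fin (pols n e) × Fin L // Pass β (ts x) q.1 (pt x q.2) ↔ pol x = true} +
        (Nat.card {l : Fin L // evenWeight (pt x l) = true ↔ pol x = true} +
          if pol x = false then K - 1 else 0) := by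
      rw [Nat.card_congr (Equiv.subtypeSum), Nat.card_sum,
        Nat.card_congr (Equiv.subtypeSum (p := fun ω => P (Sum.inr ω) x)), Nat.card_sum]
      have e2 : Nat.card {a : Fin (K - 1) // P (Sum.inr (Sum.inr a)) x} =
          if pol x = false then K - 1 else 0 := by
        split_ifs with hp
        · have : ∀ a : Fin (K - 1), P (Sum.inr (Sum.inr a)) x := fun a => hp
          rw [Nat.card_congr (Equiv.subtypeUnivEquiv this), Nat.card_fin]
        · rw [Nat.card_eq_zero]
          left
          exact ⟨fun a => hp a.2⟩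
      rw [e2]
      congr 1
      exact card_Pr β x
    rw [h1]
    exact count_iff β x rfl rfl hK (by omega)

end Pool.Agent.URG
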