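import Pool.Agent.URG.Mem

/-!
# Upper bound: a read-once nondeterministic branching program for the complement
-/

set_option autoImplicit false

namespace Pool.Agent.URG

open Finset hiding val
open Pool.Agent.Lib_helper20.SRO

namespace ROB

variable {I Ω A : Type} [AddCommMonoid A] {m : ℕ}

/-- The program that guesses `ω`, reads all variables in a fixed order and adds the
contributions. -/
def prg (ρ : Fin m ≃ I) (g : Ω → I → Bool → A) (acc : Ω → A → Prop) :
    NBP I (Option (Option (Ω × Fin (m + 1) × A))) where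
  source := none
  sink := some none
  edge u v o :=
    (∃ ω, u = none ∧ v = some (some (ω, 0, 0)) ∧ o = none) ∨
    (∃ (ω : Ω) (i : Fin m) (a : A) (c : Bool), u = some (some (ω, i.castSucc, a)) ∧
      v = some (some (ω, i.succ, a + g ω (ρ i) c)) ∧ o = some (ρ i, c)) ∨
    (∃ ω a, acc ω a ∧ u = some (some (ω, Fin.last m, a)) ∧ v = some none ∧ o = none)

/-- the variables that are read from the position `i` on -/
def rest (ρ : Fin m ≃ I) (i : ℕ) : List I := ((List.finRange m).drop i).map ρ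

lemma drop_eq (i : Fin m) : (List.finRange m).drop i = i :: (List.finRange m).drop (i + 1) := by
  rw [List.drop_eq_getElem_cons (by simp)]
  simp

lemma rest_eq (ρ : Fin m ≃ I) (i : Fin m) : rest ρ i = ρ i :: rest ρ (i + 1) := by
  unfold rest
  rw [drop_eq, List.map_cons]

lemma rest_nodup (ρ : Fin m ≃ I) (i : ℕ) : (rest ρ i).Nodup := by
  unfold rest
  exact ((List.nodup_finRange m).sublist (List.drop_sublist _ _)).map ρ.injective

variable {ρ : Fin m ≃ I} {g : Ω → I → Bool → A} {acc : Ω → A → Prop}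

lemma walk_sink {w : Option (Option (Ω × Fin (m + 1) × A))} {l : List (I × Bool)}
    (h : Walk (prg ρ g acc) (some none) w l) : l = [] ∧ w = some none := by
  rcases h with _ | ⟨he, -⟩ | ⟨y, c, he, -⟩
  · exact ⟨rfl, rfl⟩
  · rcases he with ⟨_, h1, _⟩ | ⟨_, _, _, _, h1, _⟩ | ⟨_, _, _, h1, _⟩ <;>
      exact absurd h1 (by simp)
  · rcases he with ⟨_, h1, _⟩ | ⟨_, _, _, _, h1, _⟩ | ⟨_, _, _, h1, _⟩ <;>
      exact absurd h1 (by simp)

/-- the sum of the contributions from the position `i` on -/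
def tot (ρ : Fin m ≃ I) (g : Ω → I → Bool → A) (ω : Ω) (x : I → Bool) (i : ℕ) : A :=
  (((List.finRange m).drop i).map fun j => g ω (ρ j) (x (ρ j))).sum

lemma tot_eq (ω : Ω) (x : I → Bool) (i : Fin m) :
    tot ρ g ω x i = g ω (ρ i) (x (ρ i)) + tot ρ g ω x (i + 1) := by
  unfold tot
  rw [drop_eq, List.map_cons, List.sum_cons]

lemma walk_inner {u w : Option (Option (Ω × Fin (m + 1) × A))} {l : List (I × Bool)}
    (h : Walk (prg ρ g acc) u w l) : ∀ (ω : Ω) (i : Fin (m + 1)) (a : A),
      u = some (some (ω, i, a)) → l.map Prod.fst <+: rest ρ i ∧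
      (∀ x, Agrees x l → w = some none → acc ω (a + tot ρ g ω x i)) := by
  induction h with
  | nil u =>
    intro ω i a hu
    refine ⟨List.nil_prefix, fun x _ hw => ?_⟩
    rw [hu] at hw
    exact absurd hw (by simp)
  | @free u v w l he hw ih =>
    intro ω i a hu
    rcases he with ⟨_, h1, _⟩ | ⟨_, _, _, _, _, _, h1⟩ | ⟨ω', a', ha, h1, h2, -⟩
    · rw [hu] at h1
      exact absurd h1 (by simp)
    · exact absurd h1 (by simp)
    · rw [hu] at h1
      have h3 := Option.some.inj (Option.some.inj h1)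
      rw [Prod.mk.injEq, Prod.mk.injEq] at h3
      obtain ⟨rfl, rfl, rfl⟩ := h3
      rw [h2] at hw
      obtain ⟨rfl, -⟩ := walk_sink hw
      refine ⟨List.nil_prefix, fun x _ _ => ?_⟩
      have h4 : tot ρ g ω x (Fin.last m : ℕ) = 0 := by
        unfold tot
        rw [Fin.val_last, List.drop_of_length_le (by simp)]
        rfl
      rw [h4, add_zero]
      exact ha
  | @test u v w l y c he hw ih =>
    intro ω i a hu
    rcases he with ⟨_, _, _, h1⟩ | ⟨ω', j, a', c', h1, h2, h3⟩ | ⟨_, _, _, _, _, h1⟩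
    · exact absurd h1 (by simp)
    · rw [hu] at h1
      have h4 := Option.some.inj (Option.some.inj h1)
      rw [Prod.mk.injEq, Prod.mk.injEq] at h4
      obtain ⟨rfl, rfl, rfl⟩ := h4
      have h5 := Option.some.inj h3
      rw [Prod.mk.injEq] at h5
      obtain ⟨rfl, rfl⟩ := h5
      obtain ⟨i1, i2⟩ := ih _ _ _ h2
      rw [Fin.val_succ] at i1 i2
      rw [Fin.val_castSucc]
      refine ⟨?_, fun x hx hw0 => ?_⟩
      · rw [rest_eq, List.map_cons]
        exact (List.cons_prefix_cons).2 ⟨rfl, i1⟩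
      · have h6 : Agrees x l := fun p hp => hx p (List.mem_cons_of_mem _ hp)
        have h7 : x (ρ j) = c := hx (ρ j, c) List.mem_cons_self
        have h8 := i2 x h6 hw0
        rw [tot_eq, h7, ← add_assoc]
        exact h8
    · exact absurd h1 (by simp)

lemma tot_zero [Fintype I] (ω : Ω) (x : I → Bool) : tot ρ g ω x 0 = ∑ i, g ω i (x i) := by
  unfold tot
  rw [List.drop_zero, ← Fin.sum_univ_def]
  exact Equiv.sum_comp ρ (fun i => g ω i (x i))

lemma walk_source {w : Option (Option (Ω × Fin (m + 1) × A))} {l : List (I × Bool)}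
    (h : Walk (prg ρ g acc) none w l) : l.map Prod.fst <+: rest ρ 0 ∧
      (∀ x, Agrees x l → w = some none → ∃ ω, acc ω (tot ρ g ω x 0)) := by
  rcases h with _ | ⟨he, hw⟩ | ⟨y, c, he, -⟩
  · exact ⟨List.nil_prefix, fun x _ h => absurd h (by simp)⟩
  · rcases he with ⟨ω, -, h1, -⟩ | ⟨_, _, _, _, h1, _⟩ | ⟨_, _, _, h1, _⟩
    · obtain ⟨i1, i2⟩ := walk_inner hw ω 0 0 h1
      refine ⟨i1, fun x hx hw0 => ⟨ω, ?_⟩⟩
      have h2 := i2 x hx hw0
      rw [zero_add] at h2
      exact h2
    · exact absurd h1 (by simp)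
    · exact absurd h1 (by simp)
  · rcases he with ⟨_, _, _, h1⟩ | ⟨_, _, _, _, h1, _⟩ | ⟨_, _, _, h1, _⟩ <;>
      exact absurd h1 (by simp)

lemma read_once : (prg ρ g acc).SyntacticReadOnce := by
  intro l hl
  exact (rest_nodup ρ 0).sublist (walk_source hl).1.sublist

lemma run (x : I → Bool) (ω : Ω) : ∀ (k : ℕ) (i : Fin (m + 1)) (a : A), i.val + k = m →
    acc ω (a + tot ρ g ω x i) →
    ∃ l, Walk (prg ρ g acc) (some (some (ω, i, a))) (some none) l ∧ Agrees x l := by
  intro k
  induction k with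
  | zero =>
    intro i a hi ha
    have hi' : i = Fin.last m := Fin.ext (by simpa using hi)
    subst hi'
    have h4 : tot ρ g ω x (Fin.last m : ℕ) = 0 := by
      unfold tot
      rw [Fin.val_last, List.drop_of_length_le (by simp)]
      rfl
    rw [h4, add_zero] at ha
    exact ⟨[], Walk.free (v := some none) (Or.inr (Or.inr ⟨ω, a, ha, rfl, rfl, rfl⟩)) (Walk.nil _),
      fun p hp => absurd hp (by simp)⟩
  | succ k ih =>
    intro i a hi ha
    have hi' : i.val < m := by omega
    obtain ⟨j, rfl⟩ : ∃ j : Fin m, i = j.castSucc := ⟨⟨i, hi'⟩, rfl⟩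
    rw [Fin.val_castSucc] at ha hi
    rw [tot_eq, ← add_assoc] at ha
    obtain ⟨l, hw, hl⟩ := ih j.succ _ (by rw [Fin.val_succ]; omega)
      (by rw [Fin.val_succ]; exact ha)
    refine ⟨(ρ j, x (ρ j)) :: l, Walk.test _ _ (Or.inr (Or.inl ⟨ω, j, a, x (ρ j), rfl, rfl,
      rfl⟩)) hw, ?_⟩
    intro p hp
    rcases List.mem_cons.1 hp with rfl | hp
    · rfl
    · exact hl p hp

theorem accepts [Fintype I] (x : I → Bool) :
    (prg ρ g acc).Accepts x ↔ ∃ ω, acc ω (∑ i, g ω i (x i)) := by
  constructor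
  · rintro ⟨l, hw, hl⟩
    obtain ⟨ω, h⟩ := (walk_source hw).2 x hl rfl
    rw [tot_zero] at h
    exact ⟨ω, h⟩
  · rintro ⟨ω, h⟩
    obtain ⟨l, hw, hl⟩ := run (ρ := ρ) (g := g) (acc := acc) x ω m 0 0 (by simp) (by
      rw [zero_add, Fin.val_zero, tot_zero]
      exact h)
    exact ⟨l, Walk.free (v := some (some (ω, 0, 0))) (Or.inl ⟨ω, rfl, rfl, rfl⟩) hw, hl⟩

omit [AddCommMonoid A] in
theorem card_nodes [Fintype Ω] [Fintype A] :
    Fintype.card (Option (Option (Ω × Fin (m + 1) × A))) =
      Fintype.card Ω * ((m + 1) * Fintype.card A) + 2 := by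
  rw [Fintype.card_option, Fintype.card_option, Fintype.card_prod, Fintype.card_prod,
    Fintype.card_fin]

end ROB

open MEM in
/-- **The complement of `goodA` is easy.** -/
theorem t_rob (n e L : ℕ) (β : Pool.Agent.HPM.Fn.Coord (deg n e)) :
    ∃ (Q : Type) (_ : Fintype Q) (G : NBP (VarA n e L) Q), G.SyntacticReadOnce ∧
      G.Computes (fun v => !goodA β v) ∧
      Fintype.card Q = (pols n e * L * 2 ^ (deg n e * (4 ^ e + 1)) + L) *
        ((Fintype.card (VarA n e L) + 1) * 2 ^ (deg n e + 2)) + 2 := by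
  classical
  have hfin : Fintype (St n e) := Fintype.ofFinite _
  have hcard : Fintype.card (St n e) = 2 ^ (deg n e + 2) := by
    rw [← Nat.card_eq_fintype_card, card_St]
  let acc : Gs n e L ⊕ Fin L → St n e → Prop := Sum.elim
    (fun ω u => Additive.toMul u.1.1 = 1 ∧ ¬ ZP β ω u.1.2) (fun _ u => u.2 = 1)
  refine ⟨_, inferInstance, ROB.prg (Fintype.equivFin (VarA n e L)).symm (hx β) acc,
    ROB.read_once, fun x => ?_, ?_⟩
  · rw [ROB.accepts]
    have h1 : (!goodA β x) = true ↔ ¬ Good β (fun i => x (Sum.inl i)) fun p => x (Sum.inr p) := by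
      unfold goodA
      rw [Bool.not_eq_true', decide_eq_false_iff_not]
    rw [h1]
    unfold Good
    constructor
    · rintro ⟨ω | l, h⟩
      · simp only [acc, Sum.elim_inl, sum_ok, sum_val] at h
        obtain ⟨hr, hz⟩ := h
        intro hg
        rw [zp_iff β ω x hr] at hz
        exact hz ((hg ω.1.2).2 ω.1.1)
      · simp only [acc, Sum.elim_inr, sum_par] at h
        intro hg
        have h2 := (even_iff _).1 (hg l).1
        rw [h2] at h
        exact zero_ne_one h
    · intro h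
      simp only [not_forall, not_and_or] at h
      obtain ⟨l, h | ⟨t, h⟩⟩ := h
      · refine ⟨Sum.inr l, ?_⟩
        simp only [acc, Sum.elim_inr, sum_par]
        rw [even_iff] at h
        have key : ∀ S : ZMod 2, ¬ S = 0 → S = 1 := by decide
        exact key _ h
      · refine ⟨Sum.inl ((t, l), (fun i => x (Sum.inl (t, Sum.inl i)),
          fun k i => x (Sum.inl (t, Sum.inr (k, i))))), ?_⟩
        simp only [acc, Sum.elim_inl, sum_ok, sum_val]
        have hr : Right ((t, l), (fun i => x (Sum.inl (t, Sum.inl i)),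
          fun k i => x (Sum.inl (t, Sum.inr (k, i))))) x := ⟨rfl, rfl⟩
        refine ⟨hr, ?_⟩
        rw [zp_iff β _ x hr]
        exact h
  · rw [ROB.card_nodes, Fintype.card_sum, card_Gs, Fintype.card_fin, hcard]

end Pool.Agent.URG
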