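import Pool.Agent.URG.Low2
import Pool.Agent.URG.Ppu
import Pool.Agent.URG.Rob

/-!
# The parameters
-/

set_option autoImplicit false

namespace Pool.Agent.URG

open Finset

lemma big (A c : ℝ) (hc : 0 < c) : ∃ n0 : ℕ, ∀ n : ℕ, n0 ≤ n → A * n ≤ 2 ^ (c * n) := by
  have hr : (1 : ℝ) < 2 ^ c := Real.one_lt_rpow one_lt_two hc
  have h1 := tendsto_pow_const_div_const_pow_of_one_lt 1 hr
  have hA : (0 : ℝ) < 1 / (|A| + 1) := by positivity
  have h2 := (h1.eventually (gt_mem_nhds hA))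
  rw [Filter.eventually_atTop] at h2
  obtain ⟨n0, h2⟩ := h2
  refine ⟨n0, fun n hn => ?_⟩
  have h3 := h2 n hn
  rw [pow_one] at h3
  have h4 : (0 : ℝ) < (2 ^ c) ^ n := by positivity
  have h5 : (0 : ℝ) < |A| + 1 := by positivity
  rw [div_lt_div_iff₀ h4 h5, one_mul] at h3
  have h6 : ((2 : ℝ) ^ c) ^ n = 2 ^ (c * n) := by
    rw [← Real.rpow_natCast, ← Real.rpow_mul (by norm_num)]
  rw [h6] at h3
  have h7 : A ≤ |A| := le_abs_self A
  have h8 : (0 : ℝ) ≤ n := Nat.cast_nonneg n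
  nlinarith

lemma le_lg {C n : ℕ} (h : 2 ^ C ≤ n) : C ≤ lg n := by
  have h1 : C ≤ Nat.log 2 n := Nat.le_log_of_pow_le (by norm_num) h
  unfold lg
  omega

lemma two_pow_lg {n : ℕ} (hn : 2 ≤ n) : 2 ^ lg n ≤ n ^ 2 := by
  have h1 : 2 ^ Nat.log 2 n ≤ n := Nat.pow_log_le_self 2 (by omega)
  unfold lg
  rw [pow_succ]
  nlinarith

lemma lg_le {n : ℕ} (hn : 2 ≤ n) : lg n ≤ n := by
  have h1 : Nat.log 2 n < n := Nat.log_lt_self 2 (by omega)
  unfold lg
  omega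

lemma card_X (n e : ℕ) : Fintype.card (VarX n e) = pols n e * (deg n e * (4 ^ e + 1)) := by
  rw [Fintype.card_prod, Fintype.card_sum, Fintype.card_prod, Fintype.card_fin, Fintype.card_fin,
    Fintype.card_fin]
  ring

lemma card_all {n L : ℕ} (W : Type) [Fintype W] :
    Fintype.card (W ⊕ (Fin L × Fin n)) = Fintype.card W + n * L := by
  rw [Fintype.card_sum, Fintype.card_prod, Fintype.card_fin, Fintype.card_fin, mul_comm L n]

/-- the number of bits of the tests, divided by `n` -/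
def dd (e : ℕ) : ℕ := 3 * (4 ^ e + 1) * (4 * (2 ^ e + 1) + 1) + 1

lemma pols_lg {n : ℕ} (e : ℕ) (hn : 2 ≤ n) :
    pols n e * lg n ≤ (4 * (2 ^ e + 1) + 1) * n := by
  have h1 := lg_le hn
  have h2 : 4 * (2 ^ e + 1) * n / lg n * lg n ≤ 4 * (2 ^ e + 1) * n := Nat.div_mul_le_self _ _
  unfold pols
  rw [add_mul, one_mul, add_mul _ 1 n, one_mul]
  omega

lemma deg_le {n e : ℕ} (h : 4 * e ≤ lg n) : deg n e ≤ 3 * lg n := by
  unfold deg
  omega

lemma card_X_le {n e : ℕ} (hn : 2 ≤ n) (h : 4 * e ≤ lg n) :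
    Fintype.card (VarX n e) + 1 ≤ dd e * n := by
  rw [card_X]
  have h1 := deg_le h
  have h2 := pols_lg e hn
  calc pols n e * (deg n e * (4 ^ e + 1)) + 1
      ≤ pols n e * (3 * lg n * (4 ^ e + 1)) + 1 * n := by
        refine Nat.add_le_add (Nat.mul_le_mul_left _ (Nat.mul_le_mul_right _ h1)) (by omega)
    _ = 3 * (4 ^ e + 1) * (pols n e * lg n) + 1 * n := by ring
    _ ≤ 3 * (4 ^ e + 1) * ((4 * (2 ^ e + 1) + 1) * n) + 1 * n := by gcongr
    _ = dd e * n := by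
        unfold dd
        ring

/-- **The parameters.** -/
theorem t_num (c0 : ℝ) (h0 : 0 < c0) (h1 : c0 ≤ 1) : ∃ e L : ℕ, 1 ≤ e ∧ 1 ≤ L ∧ ∃ n1 : ℕ,
    ∀ n ≥ n1, 2 ≤ n ∧
      ((Fintype.card (VarX n e) + 1 : ℕ) : ℝ) ≤ c0 / 4 * (n * L) ∧
      (∀ r : ℕ, (r : ℝ) ≤ c0 * (n * L) → Num c0 n e L r) ∧
      2 ^ bits n e L ≤ (n * L) ^ (6 * 4 ^ e + 18) ∧
      2 ^ (deg n e + 2) ≤ (n * L) ^ (6 * 4 ^ e + 18) ∧
      (pols n e * L * 2 ^ (deg n e * (4 ^ e + 1)) + L) *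
        ((Fintype.card (VarA n e L) + 1) * 2 ^ (deg n e + 2)) + 2 ≤ (n * L) ^ (6 * 4 ^ e + 18) ∧
      (12 * (n * L) : ℝ) ≤ 2 ^ (c0 / 4 * n) := by
  -- `2 ^ e ≥ 36 / c0`
  obtain ⟨e, he⟩ := pow_unbounded_of_one_lt (36 / c0) (one_lt_two (α := ℝ))
  have he36 : 36 < c0 * 2 ^ e := by
    rw [div_lt_iff₀ h0] at he
    linarith
  have he1 : 1 ≤ e := by
    rcases Nat.eq_zero_or_pos e with h | h
    · rw [h] at he36
      norm_num at he36
      linarith
    · exact h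
  set L : ℕ := ⌈4 * (dd e : ℝ) / c0⌉₊ with hL
  have hdd : (0 : ℝ) < dd e := by
    unfold dd
    positivity
  have hL1 : 1 ≤ L := by
    rw [hL, Nat.one_le_ceil_iff]
    positivity
  have hLd : (dd e : ℝ) ≤ c0 / 4 * L := by
    have : 4 * (dd e : ℝ) / c0 ≤ L := Nat.le_ceil _
    rw [div_le_iff₀ h0] at this
    linarith
  obtain ⟨C, hC⟩ := exists_nat_ge (4 * (4 * (2 ^ e + 1) + 1 : ℝ) / c0)
  obtain ⟨a1, ha1⟩ := big (12 * L) (c0 / 4) (by positivity)
  obtain ⟨a2, ha2⟩ := big (2 ^ e) c0 h0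
  obtain ⟨a3, ha3⟩ := big (4 * L) (c0 / 2) (by positivity)
  refine ⟨e, L, he1, hL1, 2 ^ (C + 4 * e + (4 * (2 ^ e + 1) + 1) + 8) + a1 + a2 + a3, ?_⟩
  intro n hn
  have hnpow : 2 ^ (C + 4 * e + (4 * (2 ^ e + 1) + 1) + 8) ≤ n := by
    exact ((Nat.le_add_right _ a1).trans
      ((Nat.le_add_right _ a2).trans (Nat.le_add_right _ a3))).trans hn
  have hlg : C + 4 * e + (4 * (2 ^ e + 1) + 1) + 8 ≤ lg n := le_lg hnpow
  have hn8 : 2 ^ 8 ≤ n := (Nat.pow_le_pow_right (by norm_num) (by omega)).trans hnpow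
  have hn2 : 2 ≤ n := le_trans (by norm_num) hn8
  have hnR : (2 : ℝ) ≤ n := by exact_mod_cast hn2
  have hn1 : (1 : ℝ) ≤ n := by linarith
  have hn0 : (0 : ℝ) < n := by linarith
  have hLR : (1 : ℝ) ≤ L := by exact_mod_cast hL1
  have hlgR : (0 : ℝ) < lg n := by exact_mod_cast lg_pos n
  have ha1' := ha1 n (((Nat.le_add_left a1 _).trans
    ((Nat.le_add_right _ a2).trans (Nat.le_add_right _ a3))).trans hn)
  have ha2' := ha2 n (((Nat.le_add_left a2 _).trans (Nat.le_add_right _ a3)).trans hn)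
  have ha3' := ha3 n ((Nat.le_add_left a3 _).trans hn)
  have hWle := card_X_le (e := e) hn2 (by omega)
  have hpl := pols_lg e hn2
  have hplR : (pols n e : ℝ) * lg n ≤ (4 * (2 ^ e + 1) + 1) * n := by exact_mod_cast hpl
  have hCl : (4 * (4 * (2 ^ e + 1) + 1 : ℝ)) ≤ c0 * lg n := by
    have e1 : (C : ℝ) ≤ lg n := by exact_mod_cast (by omega : C ≤ lg n)
    rw [div_le_iff₀ h0] at hC
    nlinarith
  -- the number of polynomials
  have hpols : (pols n e : ℝ) ≤ c0 * n / 4 := by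
    have e1 : (pols n e : ℝ) * lg n ≤ (c0 * n / 4) * lg n := by
      calc (pols n e : ℝ) * lg n ≤ (4 * (2 ^ e + 1) + 1) * n := hplR
        _ ≤ (c0 * lg n / 4) * n := by
            apply mul_le_mul_of_nonneg_right _ hn0.le
            linarith
        _ = _ := by ring
    exact le_of_mul_le_mul_right e1 hlgR
  have hpn : pols n e ≤ n := by
    have : (pols n e : ℝ) ≤ n := by
      refine hpols.trans ?_
      nlinarith
    exact_mod_cast this
  have hzs : ((zs n e * pols n e : ℕ) : ℝ) ≤ c0 * n / 2 := by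
    have e1 : 4 ^ e * zs n e ≤ lg n + 4 ^ e := by
      unfold zs
      rw [mul_add, mul_one]
      exact Nat.add_le_add_right (Nat.mul_div_le _ _) _
    have e2 : 4 ^ e * (zs n e * pols n e) ≤ (4 * (2 ^ e + 1) + 1) * n + 4 ^ e * pols n e := by
      calc 4 ^ e * (zs n e * pols n e) = (4 ^ e * zs n e) * pols n e := by ring
        _ ≤ (lg n + 4 ^ e) * pols n e := Nat.mul_le_mul_right _ e1
        _ = pols n e * lg n + 4 ^ e * pols n e := by ring
        _ ≤ _ := Nat.add_le_add_right hpl _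
    have e3 : (4 : ℝ) ^ e * ((zs n e * pols n e : ℕ) : ℝ) ≤
        (4 * (2 ^ e + 1) + 1) * n + 4 ^ e * pols n e := by exact_mod_cast e2
    have h2e : (1 : ℝ) ≤ 2 ^ e := one_le_pow₀ (by norm_num)
    have h4e : (4 : ℝ) ^ e = 2 ^ e * 2 ^ e := by
      rw [← mul_pow]
      norm_num
    have e4 : (4 * (2 ^ e + 1) + 1 : ℝ) ≤ (c0 / 4) * 4 ^ e := by
      rw [h4e]
      nlinarith
    have e5 : (4 : ℝ) ^ e * ((zs n e * pols n e : ℕ) : ℝ) ≤ 4 ^ e * (c0 * n / 2) := by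
      calc (4 : ℝ) ^ e * ((zs n e * pols n e : ℕ) : ℝ)
          ≤ (4 * (2 ^ e + 1) + 1) * n + 4 ^ e * pols n e := e3
        _ ≤ ((c0 / 4) * 4 ^ e) * n + 4 ^ e * (c0 * n / 4) := by gcongr
        _ = _ := by ring
    exact le_of_mul_le_mul_left e5 (by positivity)
  -- powers of two
  have hWR : ((Fintype.card (VarX n e) + 1 : ℕ) : ℝ) ≤ c0 / 4 * (n * L) := by
    calc ((Fintype.card (VarX n e) + 1 : ℕ) : ℝ) ≤ dd e * n := by exact_mod_cast hWle
      _ ≤ (c0 / 4 * L) * n := by gcongr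
      _ = _ := by ring
  set X := n * L with hX
  have hnX : n ≤ X := Nat.le_mul_of_pos_right n (by omega)
  have hX8 : 2 ^ 8 ≤ X := hn8.trans hnX
  have hX1 : 1 ≤ X := le_trans (by norm_num) hX8
  have hdeg : 2 ^ deg n e ≤ X ^ 6 := by
    calc 2 ^ deg n e ≤ 2 ^ (3 * lg n) := Nat.pow_le_pow_right (by norm_num) (deg_le (by omega))
      _ = (2 ^ lg n) ^ 3 := by rw [mul_comm, pow_mul]
      _ ≤ (n ^ 2) ^ 3 := Nat.pow_le_pow_left (two_pow_lg hn2) 3
      _ = n ^ 6 := by rw [← pow_mul]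
      _ ≤ X ^ 6 := Nat.pow_le_pow_left hnX 6
  have hdeg2 : 2 ^ (deg n e + 2) ≤ X ^ 7 := by
    calc 2 ^ (deg n e + 2) = 2 ^ deg n e * 2 ^ 2 := pow_add _ _ _
      _ ≤ X ^ 6 * X := Nat.mul_le_mul hdeg (le_trans (by norm_num) hX8)
      _ = X ^ 7 := by ring
  have hD : 2 ^ (deg n e * (4 ^ e + 1)) ≤ X ^ (6 * 4 ^ e + 6) := by
    calc 2 ^ (deg n e * (4 ^ e + 1)) = (2 ^ deg n e) ^ (4 ^ e + 1) := by rw [pow_mul]
      _ ≤ (X ^ 6) ^ (4 ^ e + 1) := Nat.pow_le_pow_left hdeg _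
      _ = X ^ (6 * 4 ^ e + 6) := by
        rw [← pow_mul]
        ring
  have hpL : pols n e * L ≤ X := Nat.mul_le_mul_right _ hpn
  have hpow : ∀ {a b : ℕ}, a ≤ b → X ^ a ≤ X ^ b := fun h => Nat.pow_le_pow_right hX1 h
  refine ⟨hn2, by rw [hX] at *; push_cast at hWR ⊢; exact hWR, ?_, ?_, ?_, ?_, ?_⟩
  · intro r hr
    refine ⟨hn2, he1, by omega, hL1, hzs, ?_, ?_, hr⟩
    · refine le_trans ?_ ha2'
      have : (0 : ℝ) < 2 ^ e := by positivity
      nlinarith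
    · have e1 : c0 / 2 * n = c0 * n / 2 := by ring
      rw [← e1]
      refine le_trans ?_ ha3'
      nlinarith
  · have e1 : 2 ^ Nat.log 2 (pols n e * L) ≤ X := by
      refine (Nat.pow_log_le_self 2 ?_).trans hpL
      have := pols_pos n e
      positivity
    calc 2 ^ bits n e L
        = 2 ^ Nat.log 2 (pols n e * L) * 2 ^ (deg n e * (4 ^ e + 1)) * 2 ^ 3 := by
          unfold bits
          rw [pow_add, pow_add]
      _ ≤ X * X ^ (6 * 4 ^ e + 6) * X :=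
          Nat.mul_le_mul (Nat.mul_le_mul e1 hD) (le_trans (by norm_num) hX8)
      _ = X ^ (6 * 4 ^ e + 8) := by ring
      _ ≤ _ := hpow (by omega)
  · exact hdeg2.trans (hpow (by omega))
  · have hA : Fintype.card (VarA n e L) + 1 ≤ X ^ 2 := by
      have e1 : Fintype.card (VarX n e) + 1 ≤ X := by
        have e2 : ((Fintype.card (VarX n e) + 1 : ℕ) : ℝ) ≤ X := by
          refine hWR.trans ?_
          rw [hX]
          push_cast
          have : (0 : ℝ) ≤ n * L := by positivity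
          nlinarith
        exact_mod_cast e2
      rw [card_all, ← hX]
      have : 2 * X ≤ X ^ 2 := by
        rw [sq]
        exact Nat.mul_le_mul_right _ (le_trans (by norm_num) hX8)
      omega
    have hB : pols n e * L * 2 ^ (deg n e * (4 ^ e + 1)) + L ≤ X ^ (6 * 4 ^ e + 8) := by
      have e1 : L ≤ X := Nat.le_mul_of_pos_left L (by omega)
      calc pols n e * L * 2 ^ (deg n e * (4 ^ e + 1)) + L
          ≤ X * X ^ (6 * 4 ^ e + 6) + X := Nat.add_le_add (Nat.mul_le_mul hpL hD) e1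
        _ ≤ X * X ^ (6 * 4 ^ e + 6) + X * X ^ (6 * 4 ^ e + 6) := by
            refine Nat.add_le_add_left (Nat.le_mul_of_pos_right _ ?_) _
            positivity
        _ = 2 * X ^ (6 * 4 ^ e + 7) := by ring
        _ ≤ X * X ^ (6 * 4 ^ e + 7) := Nat.mul_le_mul_right _ (le_trans (by norm_num) hX8)
        _ = _ := by ring
    calc (pols n e * L * 2 ^ (deg n e * (4 ^ e + 1)) + L) *
          ((Fintype.card (VarA n e L) + 1) * 2 ^ (deg n e + 2)) + 2
        ≤ X ^ (6 * 4 ^ e + 8) * (X ^ 2 * X ^ 7) + X ^ (6 * 4 ^ e + 17) := by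
          refine Nat.add_le_add (Nat.mul_le_mul hB (Nat.mul_le_mul hA hdeg2)) ?_
          refine le_trans (le_trans (by norm_num) hX8) ?_
          calc X = X ^ 1 := (pow_one X).symm
            _ ≤ _ := hpow (by omega)
      _ = 2 * X ^ (6 * 4 ^ e + 17) := by ring
      _ ≤ X * X ^ (6 * 4 ^ e + 17) := Nat.mul_le_mul_right _ (le_trans (by norm_num) hX8)
      _ = _ := by ring
  · calc (12 * (n * L) : ℝ) = 12 * L * n := by ring
      _ ≤ _ := ha1'

end Pool.Agent.URG
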