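import Pool.Agent.Lib_helper20.SRO.Final
import Pool.Agent.Lib_helper39.SRO.B2

/-!
# The core of the lower bound for a dense subset of the accepted inputs

A variant of `Pool.Agent.Lib_helper20.SRO.stmtCore3` (same proof): the program need only be sound,
and only a dense set of inputs needs good accepting walks.
-/

set_option autoImplicit false

namespace Pool.Agent.URG

open Finset Pool.Agent.Lib_helper20.SRO

/-- Choosing the reread variables and their values. -/
lemma choose_R' {n r : ℕ} (hr : r ≤ n) {N : Type} {G : NBP (Fin n) N}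
    (B0 : Finset (Fin n → Bool)) (hG : ∀ b ∈ B0, ∃ l, Walk G G.source G.sink l ∧ Agrees b l ∧
      (univ.filter (fun x => 2 ≤ (l.map Prod.fst).count x)).card ≤ r) :
    ∃ (R : Finset (Fin n)) (a : Fin n → Bool) (B : Finset (Fin n → Bool)), R.card = r ∧
      (∀ b ∈ B, (∀ x ∈ R, b x = a x) ∧ ∃ l, Walk G G.source G.sink l ∧ Agrees b l ∧
        ∀ x, x ∉ R → (l.map Prod.fst).count x ≤ 1) ∧
      B0.card ≤ n.choose r * (2 ^ r * B.card) := by
  classical
  let BR : Finset (Fin n) → Finset (Fin n → Bool) := fun R =>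
    B0.filter (fun b => ∃ l, Walk G G.source G.sink l ∧ Agrees b l ∧
        ∀ x, x ∉ R → (l.map Prod.fst).count x ≤ 1)
  have hne : (powersetCard r (univ : Finset (Fin n))).Nonempty := by
    rw [Finset.powersetCard_nonempty]
    simpa using hr
  obtain ⟨R, hR, hmax⟩ := Finset.exists_max_image (powersetCard r (univ : Finset (Fin n)))
    (fun R => (BR R).card) hne
  have hRcard : R.card = r := (Finset.mem_powersetCard.1 hR).2
  have h1 : B0.card ≤ n.choose r * (BR R).card := by
    have hcov : B0 ⊆ (powersetCard r (univ : Finset (Fin n))).biUnion BR := by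
      intro b hb
      obtain ⟨l, hl, hbl, hcount⟩ := hG b hb
      obtain ⟨R', hR', hR'c⟩ := Finset.exists_superset_card_eq hcount (by simpa using hr)
      rw [mem_biUnion]
      refine ⟨R', Finset.mem_powersetCard.2 ⟨Finset.subset_univ _, hR'c⟩, ?_⟩
      rw [mem_filter]
      refine ⟨hb, l, hl, hbl, ?_⟩
      intro x hx
      by_contra hcon
      apply hx
      apply hR'
      rw [mem_filter]
      exact ⟨mem_univ _, by omega⟩
    calc B0.card ≤ ((powersetCard r (univ : Finset (Fin n))).biUnion BR).card := card_le_card hcov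
      _ ≤ ∑ R' ∈ powersetCard r (univ : Finset (Fin n)), (BR R').card := card_biUnion_le
      _ ≤ ∑ _R' ∈ powersetCard r (univ : Finset (Fin n)), (BR R).card :=
          sum_le_sum (fun R' hR' => hmax R' hR')
      _ = n.choose r * (BR R).card := by
          rw [sum_const, smul_eq_mul, card_powersetCard, card_univ, Fintype.card_fin]
  let Ba : (R → Bool) → Finset (Fin n → Bool) := fun a =>
    (BR R).filter (fun b => ∀ x : R, b x = a x)
  obtain ⟨a, ha⟩ := Finite.exists_max (fun a => (Ba a).card)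
  have h2 : (BR R).card ≤ 2 ^ r * (Ba a).card := by
    have hcov : BR R ⊆ (univ : Finset (R → Bool)).biUnion Ba := by
      intro b hb
      rw [mem_biUnion]
      refine ⟨fun x => b x, mem_univ _, ?_⟩
      rw [mem_filter]
      exact ⟨hb, fun _ => rfl⟩
    calc (BR R).card ≤ ((univ : Finset (R → Bool)).biUnion Ba).card := card_le_card hcov
      _ ≤ ∑ a' : R → Bool, (Ba a').card := card_biUnion_le
      _ ≤ ∑ _a' : R → Bool, (Ba a).card := sum_le_sum (fun a' _ => ha a')
      _ = 2 ^ r * (Ba a).card := by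
          rw [sum_const, smul_eq_mul, card_univ, Fintype.card_fun, Fintype.card_bool,
            Fintype.card_coe, hRcard]
  refine ⟨R, fun x => if h : x ∈ R then a ⟨x, h⟩ else false, Ba a, hRcard, ?_, ?_⟩
  · intro b hb
    rw [mem_filter] at hb
    refine ⟨?_, (mem_filter.1 hb.1).2⟩
    intro x hx
    beta_reduce
    rw [dif_pos hx]
    exact hb.2 ⟨x, hx⟩
  · exact h1.trans (Nat.mul_le_mul_left _ h2)

/-- **The core of the lower bound**, for a sound program and a dense set `B0` of inputs with
accepting walks on which few variables are tested more than once. -/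
theorem core4 (hE : StmtE2) (hC : StmtC) (hD : StmtD) (hN : StmtNum2) : ∃ c : ℝ, 0 < c ∧
    ∃ n0 : ℕ, ∀ n ≥ n0, ∀ (N : Type) [Fintype N]
    (G : NBP (Fin n) N) (f : (Fin n → Bool) → Bool) (m r : ℕ) (B0 : Finset (Fin n → Bool)),
    (r : ℝ) ≤ c * n → (∀ b, G.Accepts b → f b = true) → Rigid f →
    (∀ b ∈ B0, ∃ l, Walk G G.source G.sink l ∧ Agrees b l ∧
      (univ.filter (fun x => 2 ≤ (l.map Prod.fst).count x)).card ≤ r) →
    1 ≤ m → (m : ℝ) ≤ 2 ^ (c * n) → RectFree f m →
    (2 : ℝ) ^ n ≤ 2 ^ (c * n) * B0.card → (2 : ℝ) ^ (c * n) ≤ Fintype.card N := by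
  classical
  obtain ⟨c, y, s, hc, hy0, hy, hs, n0, h⟩ := hN
  have hl2 : 0 < Real.log 2 := Real.log_pos (by norm_num)
  -- the constants
  set x : ℝ := min (c * Real.log 2 / 8) (1 / 2) with hx
  have hx0 : 0 < x := by
    rw [hx]
    exact lt_min (by positivity) (by norm_num)
  have hx1 : x ≤ c * Real.log 2 / 8 := min_le_left _ _
  have hx2 : x ≤ 1 / 2 := min_le_right _ _
  have hlx : 0 < Real.log x⁻¹ := by
    apply Real.log_pos
    rw [one_lt_inv₀ hx0]
    linarith
  set c3 : ℝ := min (min (c / 8) (1 / 4)) (c * Real.log 2 / 8 / Real.log x⁻¹) with hc3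
  have hc30 : 0 < c3 := by
    rw [hc3]
    exact lt_min (lt_min (by positivity) (by norm_num)) (by positivity)
  have h31 : c3 ≤ c / 8 := (min_le_left _ _).trans (min_le_left _ _)
  have h32 : c3 ≤ 1 / 4 := (min_le_left _ _).trans (min_le_right _ _)
  have h33 : c3 * Real.log x⁻¹ ≤ c * Real.log 2 / 8 := by
    have : c3 ≤ c * Real.log 2 / 8 / Real.log x⁻¹ := min_le_right _ _
    rwa [le_div_iff₀ hlx] at this
  refine ⟨c3, hc30, 2 * n0, ?_⟩
  intro n hn N _ G f m r B0 hr hsound hrig hB0 hm1 hm hrf hdense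
  have hnn : (0 : ℝ) ≤ n := Nat.cast_nonneg n
  have hrn : r ≤ n := by
    have : (r : ℝ) ≤ n := by nlinarith
    exact_mod_cast this
  obtain ⟨R, a, B, hRc, hB, hcount⟩ := choose_R' hrn B0 hB0
  have hRcc : Rᶜ.card = n - r := by
    rw [Finset.card_compl, Fintype.card_fin, hRc]
  set k : ℕ := n - r with hk
  let ι : Fin k → Fin n := Rᶜ.orderEmbOfFin hRcc
  have hι : Function.Injective ι := (Rᶜ.orderEmbOfFin hRcc).injective
  have hιR : ∀ z, ι z ∉ R := by
    intro z
    have := Finset.orderEmbOfFin_mem Rᶜ hRcc z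
    rwa [Finset.mem_compl] at this
  have hιR' : ∀ y, y ∉ R → ∃ z, ι z = y := by
    intro y hy
    have h1 : y ∈ Set.range (Rᶜ.orderEmbOfFin hRcc) := by
      rw [Finset.range_orderEmbOfFin]
      simpa using hy
    exact h1
  have hext : ∀ b ∈ B, ext ι a (fun z => b (ι z)) = b := by
    intro b hb
    funext y
    by_cases hy : y ∈ R
    · have hy' : ∀ z, ι z ≠ y := by
        intro z hz
        apply hιR z
        rw [hz]
        exact hy
      rw [ext_of_not a _ hy', (hB b hb).1 y hy]
    · obtain ⟨z, rfl⟩ := hιR' y hy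
      rw [ext_apply hι]
  have hkr : (k : ℝ) = n - r := by
    rw [hk, Nat.cast_sub hrn]
  have hk2 : (n : ℝ) / 2 ≤ k := by
    rw [hkr]
    nlinarith
  have hkn0 : n0 ≤ k := by
    have h1 : (2 * n0 : ℝ) ≤ n := by exact_mod_cast hn
    have : (n0 : ℝ) ≤ k := by linarith
    exact_mod_cast this
  obtain ⟨g1, g2, g3, g4⟩ := h k hkn0
  have hcn : c3 * n ≤ c * k := by nlinarith
  have hmain := core3_aux hE hC hD hc hy0 hy hs k g1 g2 g3 g4 N (fixI G ι a)
    (fun b => f (ext ι a b)) m (B.image (fun b z => b (ι z)))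
    (fun b hb => hsound _ ((fixI_accepts hι a b).1 hb)) (rigid_ext hrig hι a) (by
      intro b' hb'
      obtain ⟨b, hb, rfl⟩ := Finset.mem_image.1 hb'
      obtain ⟨_, l, hl, hbl, hcl⟩ := hB b hb
      obtain ⟨l', hl', h1, h2⟩ := walk_fix3 hι (a := a) hl (by
        intro p hp hx
        have hpR : p.1 ∈ R := by
          by_contra hcon
          obtain ⟨z, hz⟩ := hιR' _ hcon
          exact hx z hz
        rw [← hbl p hp, (hB b hb).1 _ hpR])
      refine ⟨l', hl', h1 _ (by rw [hext b hb]; exact hbl), ?_⟩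
      rw [List.nodup_iff_count_le_one]
      intro z
      rw [h2 z]
      exact hcl _ (hιR z)) hm1
    (hm.trans (Real.rpow_le_rpow_of_exponent_le one_le_two hcn)) (rectFree_ext hrf hι a) (by
      have hinj : (B.image (fun b z => b (ι z))).card = B.card := by
        apply Finset.card_image_of_injOn
        intro b hb b' hb' he
        rw [← hext b hb, ← hext b' hb']
        simp only at he
        rw [he]
      rw [hinj]
      have h1 : (2 : ℝ) ^ n ≤ 2 ^ (c3 * n) * (n.choose r * (2 ^ r * B.card)) := by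
        refine hdense.trans (mul_le_mul_of_nonneg_left ?_ (Real.rpow_nonneg (by norm_num) _))
        exact_mod_cast hcount
      have h2 : (2 : ℝ) ^ n = 2 ^ k * 2 ^ r := by
        rw [← pow_add]
        congr 1
        omega
      have h3 : (2 : ℝ) ^ k ≤ (2 ^ (c3 * n) * n.choose r) * B.card := by
        have h4 : (0 : ℝ) < 2 ^ r := by positivity
        rw [h2] at h1
        have h5 : (2 : ℝ) ^ (c3 * n) * (n.choose r * (2 ^ r * B.card)) =
          ((2 ^ (c3 * n) * n.choose r) * B.card) * 2 ^ r := by ring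
        rw [h5] at h1
        exact le_of_mul_le_mul_right h1 h4
      refine h3.trans (mul_le_mul_of_nonneg_right ?_ (Nat.cast_nonneg _))
      -- 2^(c3 n) C(n,r) ≤ 2^(c k)
      have h6 := choose_bound (n := n) (r := r) hx0
      have h7 : Real.exp (x * n) * (x⁻¹) ^ r ≤ Real.exp (c * Real.log 2 / 4 * n) := by
        have e1 : (x⁻¹) ^ r = Real.exp (r * Real.log x⁻¹) := by
          rw [Real.exp_nat_mul, Real.exp_log (by positivity)]
        rw [e1, ← Real.exp_add]
        apply Real.exp_le_exp.2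
        have e2 : (r : ℝ) * Real.log x⁻¹ ≤ (c3 * n) * Real.log x⁻¹ :=
          mul_le_mul_of_nonneg_right hr hlx.le
        have e3 : (c3 * n) * Real.log x⁻¹ ≤ (c * Real.log 2 / 8) * n := by
          have := mul_le_mul_of_nonneg_right h33 hnn
          linarith
        have e4 : x * n ≤ (c * Real.log 2 / 8) * n := mul_le_mul_of_nonneg_right hx1 hnn
        linarith
      have h8 : (2 : ℝ) ^ (c3 * n) = Real.exp (c3 * n * Real.log 2) := by
        rw [Real.rpow_def_of_pos (by norm_num)]
        congr 1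
        ring
      have h9 : (2 : ℝ) ^ (c * k) = Real.exp (c * k * Real.log 2) := by
        rw [Real.rpow_def_of_pos (by norm_num)]
        congr 1
        ring
      calc (2 : ℝ) ^ (c3 * n) * (n.choose r : ℝ)
          ≤ Real.exp (c3 * n * Real.log 2) * Real.exp (c * Real.log 2 / 4 * n) := by
            rw [h8]
            exact mul_le_mul_of_nonneg_left (h6.trans h7) (Real.exp_pos _).le
        _ = Real.exp (c3 * n * Real.log 2 + c * Real.log 2 / 4 * n) := by rw [Real.exp_add]
        _ ≤ Real.exp (c * k * Real.log 2) := by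
            apply Real.exp_le_exp.2
            have e5 : c3 * n * Real.log 2 ≤ c / 8 * n * Real.log 2 := by gcongr
            have e6 : c * (n / 2) * Real.log 2 ≤ c * k * Real.log 2 := by gcongr
            have e7 : 0 ≤ c * n * Real.log 2 := by positivity
            linarith
        _ = 2 ^ (c * k) := by rw [h9])
  exact (Real.rpow_le_rpow_of_exponent_le one_le_two hcn).trans hmain


/-- The core without hypotheses. -/
theorem t_core4 : ∃ c : ℝ, 0 < c ∧
    ∃ n0 : ℕ, ∀ n ≥ n0, ∀ (N : Type) [Fintype N]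
    (G : NBP (Fin n) N) (f : (Fin n → Bool) → Bool) (m r : ℕ) (B0 : Finset (Fin n → Bool)),
    (r : ℝ) ≤ c * n → (∀ b, G.Accepts b → f b = true) → Rigid f →
    (∀ b ∈ B0, ∃ l, Walk G G.source G.sink l ∧ Agrees b l ∧
      (univ.filter (fun x => 2 ≤ (l.map Prod.fst).count x)).card ≤ r) →
    1 ≤ m → (m : ℝ) ≤ 2 ^ (c * n) → RectFree f m →
    (2 : ℝ) ^ n ≤ 2 ^ (c * n) * B0.card → (2 : ℝ) ^ (c * n) ≤ Fintype.card N :=
  core4 stmtE2 Pool.Agent.Lib_helper45.SRO.stmtC Pool.Agent.Lib_helper45.SRO.stmtD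
    Pool.Agent.Lib_helper39.SRO.stmtNum2

end Pool.Agent.URG
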