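import Pool.Agent.HPM.Fun
import Pool.Agent.HPM.Many
import Pool.Agent.Lib_helper20.SRO.Model

/-!
# Points that pass some tests

The input consists of `L` points of `{0,1}^n` and of `pols n e` tests. A test is given by an element
`a` of the field with `2 ^ deg n e` elements and by a polynomial `q` over this field, of degree less
than `4 ^ e`. A point `x` is read as the polynomial `∑ j, x_j X ^ j`; it passes the test if the
first `zs n e` coordinates of `q(x(a))` are zero.
-/

set_option autoImplicit false

namespace Pool.Agent.URG

open Finset
open Pool.Agent.HPM (elt val)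
open Pool.Agent.HPM.Fn (Coord)
open Pool.Agent.Lib_helper20.SRO (evenWeight)

/-- the number of binary digits of `n` -/
def lg (n : ℕ) : ℕ := Nat.log 2 n + 1

/-- the degree of the field -/
def deg (n e : ℕ) : ℕ := 2 * lg n + 4 * e

/-- the number of coordinates that should be zero -/
def zs (n e : ℕ) : ℕ := lg n / 4 ^ e + 1

/-- the number of tests -/
def pols (n e : ℕ) : ℕ := 4 * (2 ^ e + 1) * n / lg n + 1

lemma lg_pos (n : ℕ) : 1 ≤ lg n := by
  unfold lg
  omega

lemma zs_le (n e : ℕ) : zs n e ≤ deg n e := by
  have h1 := lg_pos n
  have h2 : lg n / 4 ^ e ≤ lg n := Nat.div_le_self _ _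
  unfold zs deg
  omega

/-- The variables of the tests: for each test the coordinates of `a` and of the coefficients. -/
abbrev VarX (n e : ℕ) : Type :=
  Fin (pols n e) × (Fin (deg n e) ⊕ (Fin (4 ^ e) × Fin (deg n e)))

/-- The input variables: those of the tests and the bits of the points. -/
abbrev VarA (n e L : ℕ) : Type := VarX n e ⊕ (Fin L × Fin n)

/-- The same with one more variable, the polarity bit. -/
abbrev VarG (n e L : ℕ) : Type := (VarX n e ⊕ Unit) ⊕ (Fin L × Fin n)

/-- the value `q(x(a))` -/
noncomputable def value {n h t : ℕ} (β : Coord h) (a : Fin h → Bool) (q : Fin t → Fin h → Bool)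
    (x : Fin n → Bool) : GaloisField 2 h :=
  ∑ k : Fin t, elt β (q k) * val x (elt β a) ^ (k : ℕ)

/-- The first `z` coordinates of this value are zero. -/
def Zero {n h t z : ℕ} (β : Coord h) (hz : z ≤ h) (a : Fin h → Bool) (q : Fin t → Fin h → Bool)
    (x : Fin n → Bool) : Prop :=
  ∀ i : Fin z, β.repr (value β a q x) (Fin.castLE hz i) = 0

/-- The point `x` passes the test `t` of the tests `u`. -/
def Pass {n e : ℕ} (β : Coord (deg n e)) (u : VarX n e → Bool) (t : Fin (pols n e))
    (x : Fin n → Bool) : Prop :=
  Zero β (zs_le n e) (fun i => u (t, Sum.inl i)) (fun k i => u (t, Sum.inr (k, i))) x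

/-- Each of the points `y` has an even number of ones and passes all tests. -/
def Good {n e L : ℕ} (β : Coord (deg n e)) (u : VarX n e → Bool) (y : Fin L × Fin n → Bool) :
    Prop :=
  ∀ l, evenWeight (fun j => y (l, j)) = true ∧ ∀ t, Pass β u t (fun j => y (l, j))

open Classical in
/-- the function without polarity bit -/
noncomputable def goodA {n e L : ℕ} (β : Coord (deg n e)) (v : VarA n e L → Bool) : Bool :=
  decide (Good β (fun i => v (Sum.inl i)) fun p => v (Sum.inr p))

/-- the polarity bit -/
def pol {n e L : ℕ} (v : VarG n e L → Bool) : Bool := v (Sum.inl (Sum.inr ()))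

open Classical in
/-- the function with polarity bit: it asks for `Good` if the polarity bit is `true` and for the
contrary if it is `false` -/
noncomputable def goodF {n e L : ℕ} (β : Coord (deg n e)) (v : VarG n e L → Bool) : Bool :=
  decide (Good β (fun i => v (Sum.inl (Sum.inl i))) (fun p => v (Sum.inr p)) ↔ pol v = true)

/-- NP mode, without any restriction, for machines that read `s` input bits at once: at each step
`b` bits are guessed, for some guesses the state after `T` steps is accepting, exactly for the inputs
in `L`. The guesses may influence the states and the input bits that are read in any way. -/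
def InNPg (s b : ℕ) (I V : Type) (T : ℕ) (L : (I → Bool) → Prop) : Prop :=
  ∃ M : Pool.Agent.HPM.GMachs s b I V, ∀ x, L x ↔ ∃ c, M.acc (M.state x c T)

end Pool.Agent.URG
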