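import Pool.Agent.URG.Defs
import Pool.Agent.HPM.Sch

/-!
# The items: a pair of a test and a point, or a point

For each item and each guess of the bits of the test, whether the item is bad can be read off from a
sum of contributions of the cells.
-/

set_option autoImplicit false

namespace Pool.Agent.URG.MEM

open Finset hiding val
open Pool.Agent.HPM (elt val)
open Pool.Agent.HPM.Fn (Coord)
open Pool.Agent.Lib_helper20.SRO (evenWeight)

variable {n e L : ℕ}

/-- the states: whether all guesses were right; the value of the polynomial; a bit -/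
abbrev St (n e : ℕ) : Type := (Additive (ZMod 2) × GaloisField 2 (deg n e)) × ZMod 2

/-- the guesses: a pair of a test and a point, the element and the coefficients -/
abbrev Gs (n e L : ℕ) : Type := (Fin (pols n e) × Fin L) ×
  ((Fin (deg n e) → Bool) × (Fin (4 ^ e) → Fin (deg n e) → Bool))

/-- the bit `y` of the cell agrees with the guess -/
def ok (ω : Gs n e L) : VarA n e L → Bool → Bool
  | Sum.inl (t, Sum.inl i), y => decide (t = ω.1.1 → y = ω.2.1 i)
  | Sum.inl (t, Sum.inr i), y => decide (t = ω.1.1 → y = ω.2.2 i.1 i.2)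
  | Sum.inr _, _ => true

/-- the contribution of the cell to the value of the polynomial -/
noncomputable def zc (β : Coord (deg n e)) (ω : Gs n e L) :
    VarA n e L → Bool → GaloisField 2 (deg n e)
  | Sum.inl _, _ => 0
  | Sum.inr (l, j), y => if l = ω.1.2 then (if y then elt β ω.2.1 ^ (j : ℕ) else 0) else 0

/-- the contribution of the cell to the number of ones of the point `l` -/
def qc (l : Fin L) : VarA n e L → Bool → ZMod 2
  | Sum.inr (l', _), y => if l' = l then (if y then 1 else 0) else 0
  | Sum.inl _, _ => 0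

/-- the contributions -/
noncomputable def hx (β : Coord (deg n e)) : Gs n e L ⊕ Fin L → VarA n e L → Bool → St n e
  | Sum.inl ω, i, y => ((Additive.ofMul (if ok ω i y then 1 else 0), zc β ω i y), 0)
  | Sum.inr l, i, y => ((0, 0), qc l i y)

/-- the first coordinates of the value are zero -/
def ZP (β : Coord (deg n e)) (ω : Gs n e L) (w : GaloisField 2 (deg n e)) : Prop :=
  ∀ i : Fin (zs n e), β.repr (∑ k : Fin (4 ^ e), elt β (ω.2.2 k) * w ^ (k : ℕ))
      (Fin.castLE (zs_le n e) i) = 0

/-- the guess is right -/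
def Right (ω : Gs n e L) (x : VarA n e L → Bool) : Prop :=
  (fun i => x (Sum.inl (ω.1.1, Sum.inl i))) = ω.2.1 ∧
    (fun k i => x (Sum.inl (ω.1.1, Sum.inr (k, i)))) = ω.2.2

theorem sum_zc (β : Coord (deg n e)) (ω : Gs n e L) (x : VarA n e L → Bool) :
    ∑ i, zc β ω i (x i) = val (fun j => x (Sum.inr (ω.1.2, j))) (elt β ω.2.1) := by
  have h0 : ∀ i, zc β ω (Sum.inl i) (x (Sum.inl i)) = 0 := fun i => rfl
  rw [Fintype.sum_sum_type, sum_congr rfl fun i _ => h0 i, sum_const_zero, zero_add,
    Fintype.sum_prod_type, sum_eq_single ω.1.2]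
  · unfold val
    refine sum_congr rfl fun j _ => ?_
    show (if ω.1.2 = ω.1.2 then _ else _) = _
    rw [if_pos rfl]
  · intro l _ hl
    refine sum_eq_zero fun j _ => ?_
    show (if l = ω.1.2 then _ else _) = _
    rw [if_neg hl]
  · intro h
    exact absurd (mem_univ _) h

theorem sum_qc (l : Fin L) (x : VarA n e L → Bool) :
    ∑ i, qc l i (x i) = ∑ j, if x (Sum.inr (l, j)) then (1 : ZMod 2) else 0 := by
  have h0 : ∀ i, qc l (Sum.inl i : VarA n e L) (x (Sum.inl i)) = 0 := fun i => rfl
  rw [Fintype.sum_sum_type, sum_congr rfl fun i _ => h0 i, sum_const_zero, zero_add,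
    Fintype.sum_prod_type, sum_eq_single l]
  · refine sum_congr rfl fun j _ => ?_
    show (if l = l then _ else _) = _
    rw [if_pos rfl]
  · intro l' _ hl
    refine sum_eq_zero fun j _ => ?_
    show (if l' = l then _ else _) = _
    rw [if_neg hl]
  · intro h
    exact absurd (mem_univ _) h

theorem all_ok (ω : Gs n e L) (x : VarA n e L → Bool) : (∀ i, ok ω i (x i) = true) ↔
    Right ω x := by
  unfold Right
  constructor
  · intro h
    refine ⟨funext fun i => ?_, funext fun k => funext fun i => ?_⟩
    · have := h (Sum.inl (ω.1.1, Sum.inl i))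
      unfold ok at this
      exact (decide_eq_true_iff.1 this) rfl
    · have := h (Sum.inl (ω.1.1, Sum.inr (k, i)))
      unfold ok at this
      exact (decide_eq_true_iff.1 this) rfl
  · rintro ⟨h1, h2⟩ i
    rcases i with ⟨t, (i | ⟨k, i⟩)⟩ | i
    · unfold ok
      refine decide_eq_true_iff.2 fun ht => ?_
      subst ht
      exact congrFun h1 i
    · unfold ok
      refine decide_eq_true_iff.2 fun ht => ?_
      subst ht
      exact congrFun (congrFun h2 k) i
    · rfl

theorem sum_ok (β : Coord (deg n e)) (ω : Gs n e L) (x : VarA n e L → Bool) :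
    Additive.toMul (∑ i, hx β (Sum.inl ω) i (x i)).1.1 = 1 ↔ Right ω x := by
  have e1 : Additive.toMul (∑ i, hx β (Sum.inl ω) i (x i)).1.1 =
      if ∀ i, ok ω i (x i) = true then 1 else 0 := by
    rw [Prod.fst_sum, Prod.fst_sum]
    have e0 : ∑ i, (hx β (Sum.inl ω) i (x i)).1.1 =
        Additive.ofMul (∏ i, (if ok ω i (x i) = true then (1 : ZMod 2) else 0)) := by
      rw [ofMul_prod]
      rfl
    rw [e0, toMul_ofMul, prod_ite_zero]
    simp
  rw [e1, ← all_ok]
  split_ifs with h
  · exact iff_of_true rfl h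
  · exact iff_of_false zero_ne_one h

theorem sum_val (β : Coord (deg n e)) (ω : Gs n e L) (x : VarA n e L → Bool) :
    (∑ i, hx β (Sum.inl ω) i (x i)).1.2 =
      val (fun j => x (Sum.inr (ω.1.2, j))) (elt β ω.2.1) := by
  rw [Prod.fst_sum, Prod.snd_sum, ← sum_zc]
  rfl

theorem sum_snd (β : Coord (deg n e)) (ω : Gs n e L) (x : VarA n e L → Bool) :
    (∑ i, hx β (Sum.inl ω) i (x i)).2 = 0 := by
  rw [Prod.snd_sum]
  exact sum_eq_zero fun i _ => rfl

theorem sum_par (β : Coord (deg n e)) (l : Fin L) (x : VarA n e L → Bool) :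
    (∑ i, hx β (Sum.inr l) i (x i)).2 = ∑ j, if x (Sum.inr (l, j)) then (1 : ZMod 2) else 0 := by
  rw [Prod.snd_sum, ← sum_qc]
  rfl

/-- if the guess is right, the value tells whether the test is passed -/
theorem zp_iff (β : Coord (deg n e)) (ω : Gs n e L) (x : VarA n e L → Bool) (h : Right ω x) :
    ZP β ω (val (fun j => x (Sum.inr (ω.1.2, j))) (elt β ω.2.1)) ↔
      Pass β (fun i => x (Sum.inl i)) ω.1.1 (fun j => x (Sum.inr (ω.1.2, j))) := by
  obtain ⟨a1, a2⟩ := h
  unfold Pass Zero value ZP
  rw [a1, a2]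

lemma even_iff (z : Fin n → Bool) :
    evenWeight z = true ↔ (∑ j, if z j then (1 : ZMod 2) else 0) = 0 := by
  unfold evenWeight
  rw [decide_eq_true_iff, ← Nat.even_iff, ← ZMod.natCast_eq_zero_iff_even, card_filter,
    Nat.cast_sum]
  have : ∀ j, ((if z j = true then 1 else 0 : ℕ) : ZMod 2) = if z j then (1 : ZMod 2) else 0 := by
    intro j
    split_ifs <;> simp
  rw [sum_congr rfl fun j _ => this j]

theorem card_St : Nat.card (St n e) = 2 ^ (deg n e + 2) := by
  rw [Nat.card_prod, Nat.card_prod, GaloisField.card 2 _ (by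
    have := lg_pos n
    unfold deg
    omega)]
  have h1 : Nat.card (Additive (ZMod 2)) = 2 := by
    rw [Nat.card_congr Additive.toMul, Nat.card_zmod]
  rw [h1, Nat.card_zmod]
  ring

theorem card_Gs : Fintype.card (Gs n e L) = pols n e * L * 2 ^ (deg n e * (4 ^ e + 1)) := by
  rw [Fintype.card_prod, Fintype.card_prod, Fintype.card_prod, Fintype.card_fun,
    Fintype.card_fun, Fintype.card_fun, Fintype.card_fin, Fintype.card_fin, Fintype.card_fin,
    Fintype.card_bool, Fintype.card_fin, mul_add, mul_one, pow_add, ← pow_mul]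
  ring

end Pool.Agent.URG.MEM
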